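import Mathlib

/-!
# Polynomial functions of the entries of a matrix
-/

set_option autoImplicit false

open Matrix Finset Filter Topology

namespace Pool.Agent.H202.ZR

variable {n : ℕ}

/-- polynomial functions of the entries of a real matrix -/
noncomputable def PF (n : ℕ) : Subalgebra ℝ (Matrix (Fin n) (Fin n) ℝ → ℝ) :=
  Algebra.adjoin ℝ (Set.range fun p : Fin n × Fin n =>
    fun Y : Matrix (Fin n) (Fin n) ℝ => Y p.1 p.2)

lemma coord_mem (i j : Fin n) : (fun Y : Matrix (Fin n) (Fin n) ℝ => Y i j) ∈ PF n :=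
  Algebra.subset_adjoin ⟨(i, j), rfl⟩

lemma const_mem (c : ℝ) : (fun _ : Matrix (Fin n) (Fin n) ℝ => c) ∈ PF n :=
  (PF n).algebraMap_mem c

theorem PF_induction {p : (Matrix (Fin n) (Fin n) ℝ → ℝ) → Prop}
    {f : Matrix (Fin n) (Fin n) ℝ → ℝ} (hf : f ∈ PF n)
    (hcoord : ∀ i j, p (fun Y => Y i j)) (hconst : ∀ c : ℝ, p (fun _ => c))
    (hadd : ∀ f g, f ∈ PF n → g ∈ PF n → p f → p g → p (fun Y => f Y + g Y))
    (hmul : ∀ f g, f ∈ PF n → g ∈ PF n → p f → p g → p (fun Y => f Y * g Y)) : p f := by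
  unfold PF at hf
  induction hf using Algebra.adjoin_induction with
  | mem x hx =>
    obtain ⟨q, rfl⟩ := hx
    exact hcoord q.1 q.2
  | algebraMap r => exact hconst r
  | add x y hx hy h1 h2 => exact hadd x y hx hy h1 h2
  | mul x y hx hy h1 h2 => exact hmul x y hx hy h1 h2

lemma PF_continuous {f : Matrix (Fin n) (Fin n) ℝ → ℝ} (hf : f ∈ PF n) : Continuous f := by
  refine PF_induction (p := fun f => Continuous f) hf ?_ ?_ ?_ ?_
  · exact fun i j => continuous_apply_apply i j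
  · exact fun c => continuous_const
  · exact fun f g _ _ h1 h2 => h1.add h2
  · exact fun f g _ _ h1 h2 => h1.mul h2

lemma PF_comp {f : Matrix (Fin n) (Fin n) ℝ → ℝ} (hf : f ∈ PF n)
    {φ : Matrix (Fin n) (Fin n) ℝ → Matrix (Fin n) (Fin n) ℝ}
    (hφ : ∀ i j, (fun Y => φ Y i j) ∈ PF n) : (fun Y => f (φ Y)) ∈ PF n := by
  refine PF_induction (p := fun f => (fun Y => f (φ Y)) ∈ PF n) hf ?_ ?_ ?_ ?_
  · exact fun i j => hφ i j
  · exact fun c => const_mem c
  · exact fun f g _ _ h1 h2 => (PF n).add_mem h1 h2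
  · exact fun f g _ _ h1 h2 => (PF n).mul_mem h1 h2

lemma PF_sum {ι : Type*} (s : Finset ι) {f : ι → Matrix (Fin n) (Fin n) ℝ → ℝ}
    (h : ∀ i ∈ s, f i ∈ PF n) : (fun Y => ∑ i ∈ s, f i Y) ∈ PF n := by
  have h1 : (fun Y => ∑ i ∈ s, f i Y) = ∑ i ∈ s, f i := by
    funext Y
    rw [Finset.sum_apply]
  rw [h1]
  exact (PF n).sum_mem h

lemma PF_prod {ι : Type*} (s : Finset ι) {f : ι → Matrix (Fin n) (Fin n) ℝ → ℝ}
    (h : ∀ i ∈ s, f i ∈ PF n) : (fun Y => ∏ i ∈ s, f i Y) ∈ PF n := by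
  have h1 : (fun Y => ∏ i ∈ s, f i Y) = ∏ i ∈ s, f i := by
    funext Y
    rw [Finset.prod_apply]
  rw [h1]
  exact (PF n).prod_mem h

lemma PF_mul {f g : Matrix (Fin n) (Fin n) ℝ → ℝ} (hf : f ∈ PF n) (hg : g ∈ PF n) :
    (fun Y => f Y * g Y) ∈ PF n := (PF n).mul_mem hf hg

lemma PF_pow {f : Matrix (Fin n) (Fin n) ℝ → ℝ} (hf : f ∈ PF n) (k : ℕ) :
    (fun Y => f Y ^ k) ∈ PF n := (PF n).pow_mem hf k

lemma PF_mul_left {f : Matrix (Fin n) (Fin n) ℝ → ℝ} (hf : f ∈ PF n)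
    (X : Matrix (Fin n) (Fin n) ℝ) : (fun Y => f (X * Y)) ∈ PF n := by
  refine PF_comp hf fun i j => ?_
  have h1 : (fun Y : Matrix (Fin n) (Fin n) ℝ => (X * Y) i j) = fun Y => ∑ k, X i k * Y k j := by
    funext Y
    rw [Matrix.mul_apply]
  rw [h1]
  exact PF_sum _ fun k _ => PF_mul (const_mem _) (coord_mem _ _)

lemma PF_det : (fun Y : Matrix (Fin n) (Fin n) ℝ => Y.det) ∈ PF n := by
  have h1 : (fun Y : Matrix (Fin n) (Fin n) ℝ => Y.det) =
      fun Y => ∑ σ : Equiv.Perm (Fin n), ((Equiv.Perm.sign σ : ℤ) : ℝ) * ∏ i, Y (σ i) i := by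
    funext Y
    rw [Matrix.det_apply']
  rw [h1]
  exact PF_sum _ fun σ _ => PF_mul (const_mem _) (PF_prod _ fun i _ => coord_mem _ _)

lemma PF_eval (P : MvPolynomial (Fin n × Fin n) ℝ) :
    (fun Y : Matrix (Fin n) (Fin n) ℝ => MvPolynomial.eval (fun p => Y p.1 p.2) P) ∈ PF n := by
  induction P using MvPolynomial.induction_on with
  | C a =>
    simp only [MvPolynomial.eval_C]
    exact const_mem a
  | add p q h1 h2 =>
    simp only [map_add]
    exact (PF n).add_mem h1 h2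
  | mul_X p i h1 =>
    simp only [map_mul, MvPolynomial.eval_X]
    exact PF_mul h1 (coord_mem i.1 i.2)

/-- restriction to a line -/
lemma PF_line {f : Matrix (Fin n) (Fin n) ℝ → ℝ} (hf : f ∈ PF n)
    (Y Z : Matrix (Fin n) (Fin n) ℝ) : ∃ p : Polynomial ℝ, ∀ t : ℝ, f (Y + t • Z) = p.eval t := by
  refine PF_induction (p := fun f => ∃ p : Polynomial ℝ, ∀ t : ℝ, f (Y + t • Z) = p.eval t) hf
    ?_ ?_ ?_ ?_
  · intro i j
    refine ⟨Polynomial.C (Y i j) + Polynomial.X * Polynomial.C (Z i j), fun t => ?_⟩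
    simp only [Matrix.add_apply, Matrix.smul_apply, smul_eq_mul, Polynomial.eval_add,
      Polynomial.eval_mul, Polynomial.eval_C, Polynomial.eval_X]
  · exact fun c => ⟨Polynomial.C c, fun t => by simp⟩
  · rintro f g _ _ ⟨p, hp⟩ ⟨q, hq⟩
    exact ⟨p + q, fun t => by rw [Polynomial.eval_add, ← hp, ← hq]⟩
  · rintro f g _ _ ⟨p, hp⟩ ⟨q, hq⟩
    exact ⟨p * q, fun t => by rw [Polynomial.eval_mul, ← hp, ← hq]⟩

/-- a polynomial function which vanishes near a point of a line vanishes on the line -/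
lemma PF_line_zero {f : Matrix (Fin n) (Fin n) ℝ → ℝ} (hf : f ∈ PF n)
    (Y Z : Matrix (Fin n) (Fin n) ℝ) {r : ℝ} (hr : 0 < r)
    (h : ∀ t : ℝ, |t| < r → f (Y + t • Z) = 0) (t : ℝ) : f (Y + t • Z) = 0 := by
  obtain ⟨p, hp⟩ := PF_line hf Y Z
  have h1 : p = 0 := by
    apply Polynomial.eq_zero_of_infinite_isRoot
    refine Set.Infinite.mono (s := Set.Ioo (0 : ℝ) r) ?_ (Set.Ioo_infinite hr)
    intro t ht
    rw [Set.mem_ofPred_eq, Polynomial.IsRoot.def, ← hp]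
    exact h t (by rw [abs_of_pos ht.1]; exact ht.2)
  rw [hp, h1, Polynomial.eval_zero]

/-- homogeneous in each row -/
def Hom (q : Fin n → ℕ) (f : Matrix (Fin n) (Fin n) ℝ → ℝ) : Prop :=
  ∀ (b : Fin n → ℝ) (Y : Matrix (Fin n) (Fin n) ℝ), f (diagonal b * Y) = (∏ i, b i ^ q i) * f Y

lemma exists_hom {f : Matrix (Fin n) (Fin n) ℝ → ℝ} (hf : f ∈ PF n) :
    ∃ (ι : Type) (_ : Fintype ι) (q : ι → Fin n → ℕ) (g : ι → Matrix (Fin n) (Fin n) ℝ → ℝ),
      (∀ k, g k ∈ PF n) ∧ (∀ k, Hom (q k) (g k)) ∧ ∀ Y, f Y = ∑ k, g k Y := by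
  refine PF_induction (p := fun f => ∃ (ι : Type) (_ : Fintype ι) (q : ι → Fin n → ℕ)
      (g : ι → Matrix (Fin n) (Fin n) ℝ → ℝ), (∀ k, g k ∈ PF n) ∧ (∀ k, Hom (q k) (g k)) ∧
      ∀ Y, f Y = ∑ k, g k Y) hf ?_ ?_ ?_ ?_
  · intro i j
    refine ⟨Unit, inferInstance, fun _ l => if l = i then 1 else 0, fun _ Y => Y i j,
      fun _ => coord_mem i j, fun _ b Y => ?_, fun Y => by simp⟩
    have h1 : ∏ l, b l ^ (if l = i then 1 else 0) = b i := by
      rw [Finset.prod_eq_single i]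
      · simp
      · intro l _ hl
        simp [hl]
      · intro h
        exact absurd (Finset.mem_univ _) h
    simp only
    rw [h1, Matrix.diagonal_mul]
  · intro c
    refine ⟨Unit, inferInstance, fun _ _ => 0, fun _ _ => c, fun _ => const_mem c,
      fun _ b Y => by simp, fun Y => by simp⟩
  · rintro f g _ _ ⟨ι, _, q, u, hu, hu2, hu3⟩ ⟨κ, _, q', v, hv, hv2, hv3⟩
    refine ⟨ι ⊕ κ, inferInstance, Sum.elim q q', Sum.elim u v, ?_, ?_, fun Y => ?_⟩
    · rintro (k | k)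
      · exact hu k
      · exact hv k
    · rintro (k | k)
      · exact hu2 k
      · exact hv2 k
    · rw [Fintype.sum_sum_type]
      simp only [hu3, hv3, Sum.elim_inl, Sum.elim_inr]
  · rintro f g _ _ ⟨ι, _, q, u, hu, hu2, hu3⟩ ⟨κ, _, q', v, hv, hv2, hv3⟩
    refine ⟨ι × κ, inferInstance, fun p i => q p.1 i + q' p.2 i, fun p Y => u p.1 Y * v p.2 Y,
      fun p => PF_mul (hu p.1) (hv p.2), fun p b Y => ?_, fun Y => ?_⟩
    · simp only
      rw [hu2, hv2]
      simp only [pow_add, Finset.prod_mul_distrib]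
      ring
    · simp only
      rw [hu3, hv3, Finset.sum_mul_sum, Fintype.sum_prod_type]

/-- On the matrices with determinant `δ` every polynomial function is a sum of polynomial functions
which are homogeneous in each row, with different degrees, which differ at indices different
from `i₀`. -/
lemma exists_hom_det (i₀ : Fin n) {δ : ℝ} (hδ : δ ≠ 0) {f : Matrix (Fin n) (Fin n) ℝ → ℝ}
    (hf : f ∈ PF n) :
    ∃ (T : Finset (Fin n → ℕ)) (K : ℕ) (g : (Fin n → ℕ) → Matrix (Fin n) (Fin n) ℝ → ℝ),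
      (∀ q ∈ T, q i₀ = K) ∧ (∀ q, g q ∈ PF n) ∧ (∀ q, Hom q (g q)) ∧
      ∀ Y, Y.det = δ → f Y = ∑ q ∈ T, g q Y := by
  classical
  obtain ⟨ι, _, q, u, hu, hu2, hu3⟩ := exists_hom hf
  obtain ⟨K, hK⟩ : ∃ K : ℕ, ∀ k, q k i₀ ≤ K := by
    refine ⟨∑ k, q k i₀, fun k => ?_⟩
    exact Finset.single_le_sum (f := fun k => q k i₀) (fun _ _ => Nat.zero_le _)
      (Finset.mem_univ k)
  set q' : ι → Fin n → ℕ := fun k i => q k i + (K - q k i₀) with hq'
  set u' : ι → Matrix (Fin n) (Fin n) ℝ → ℝ := fun k Y => u k Y * (Y.det / δ) ^ (K - q k i₀)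
    with hu'
  have hu'1 : ∀ k, u' k ∈ PF n := by
    intro k
    refine PF_mul (hu k) (PF_pow ?_ _)
    have h1 : (fun Y : Matrix (Fin n) (Fin n) ℝ => Y.det / δ) = fun Y => Y.det * δ⁻¹ := by
      funext Y
      rw [div_eq_mul_inv]
    rw [h1]
    exact PF_mul PF_det (const_mem _)
  have hu'2 : ∀ k, Hom (q' k) (u' k) := by
    intro k b Y
    simp only [hu', hq']
    rw [hu2, Matrix.det_mul, Matrix.det_diagonal]
    simp only [pow_add, Finset.prod_mul_distrib, Finset.prod_pow]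
    rw [mul_div_assoc, mul_pow]
    ring
  refine ⟨Finset.univ.image q', K, fun r Y => ∑ k ∈ Finset.univ.filter (fun k => q' k = r), u' k Y,
    ?_, fun r => PF_sum _ fun k _ => hu'1 k, fun r b Y => ?_, fun Y hY => ?_⟩
  · intro r hr
    obtain ⟨k, _, rfl⟩ := Finset.mem_image.1 hr
    have := hK k
    simp only [hq']
    omega
  · simp only
    rw [Finset.mul_sum]
    refine Finset.sum_congr rfl fun k hk => ?_
    rw [← (Finset.mem_filter.1 hk).2, hu'2]
  · have h1 : ∀ k, u k Y = u' k Y := by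
      intro k
      simp only [hu']
      rw [hY, div_self hδ, one_pow, mul_one]
    rw [hu3, Finset.sum_congr rfl fun k _ => h1 k]
    simp only
    exact (Finset.sum_fiberwise_of_maps_to (g := q') (t := Finset.univ.image q')
      (fun k _ => Finset.mem_image_of_mem _ (Finset.mem_univ k)) (fun k => u' k Y)).symm

end Pool.Agent.H202.ZR
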