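import Mathlib
import Pool.Agent.H202.ZR.Poly

/-!
# Polynomial functions which vanish on a set which is rich in a root direction
-/

set_option autoImplicit false

open Matrix Finset Filter Topology

namespace Pool.Agent.H202.ZR

variable {n : ℕ}

lemma trans_apply (i j : Fin n) (t : ℝ) (Y : Matrix (Fin n) (Fin n) ℝ) (a b : Fin n) :
    (transvection i j t * Y) a b = Y a b + if a = i then t * Y j b else 0 := by
  unfold transvection
  rw [Matrix.add_mul, Matrix.one_mul, Matrix.add_apply]
  congr 1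
  split_ifs with h
  · subst h
    rw [Matrix.single_mul_apply_same]
  · exact Matrix.single_mul_apply_of_ne (c := t) (i := i) (j := j) (a := a) (b := b) h Y

lemma trans_zero (i j : Fin n) : transvection i j (0 : ℝ) = 1 := by
  unfold transvection
  simp

/-- the derivative of a polynomial function in a root direction -/
lemma PF_deriv {f : Matrix (Fin n) (Fin n) ℝ → ℝ} (hf : f ∈ PF n) (i j : Fin n) :
    ∃ g ∈ PF n, ∀ Y, HasDerivAt (fun t : ℝ => f (transvection i j t * Y)) (g Y) 0 := by
  classical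
  refine PF_induction (p := fun f => ∃ g ∈ PF n, ∀ Y,
    HasDerivAt (fun t : ℝ => f (transvection i j t * Y)) (g Y) 0) hf ?_ ?_ ?_ ?_
  · intro a b
    refine ⟨fun Y => if a = i then Y j b else 0, ?_, fun Y => ?_⟩
    · by_cases h : a = i
      · simp only [h, if_true]
        exact coord_mem j b
      · simp only [h, if_false]
        exact const_mem 0
    · simp only [trans_apply]
      by_cases h : a = i
      · simp only [h, if_true]
        have h1 : HasDerivAt (fun t : ℝ => t * Y j b) (1 * Y j b) 0 :=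
          (hasDerivAt_id (0 : ℝ)).mul_const _
        rw [one_mul] at h1
        exact h1.const_add _
      · simp only [h, if_false]
        exact hasDerivAt_const _ _
  · intro c
    exact ⟨fun _ => 0, const_mem 0, fun Y => hasDerivAt_const _ _⟩
  · rintro f g _ _ ⟨f', hf', hf2⟩ ⟨g', hg', hg2⟩
    exact ⟨fun Y => f' Y + g' Y, (PF n).add_mem hf' hg', fun Y => (hf2 Y).add (hg2 Y)⟩
  · rintro f g hf hg ⟨f', hf', hf2⟩ ⟨g', hg', hg2⟩
    refine ⟨fun Y => f' Y * g Y + f Y * g' Y, (PF n).add_mem ((PF n).mul_mem hf' hg)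
      ((PF n).mul_mem hf hg'), fun Y => ?_⟩
    have h1 := (hf2 Y).mul (hg2 Y)
    rw [trans_zero, Matrix.one_mul] at h1
    exact h1

/-- the degree along a root direction is bounded -/
lemma PF_degree {f : Matrix (Fin n) (Fin n) ℝ → ℝ} (hf : f ∈ PF n) (i j : Fin n) :
    ∃ N : ℕ, ∀ Y, ∃ p : Polynomial ℝ, p.natDegree ≤ N ∧
      ∀ t : ℝ, f (transvection i j t * Y) = p.eval t := by
  classical
  refine PF_induction (p := fun f => ∃ N : ℕ, ∀ Y, ∃ p : Polynomial ℝ, p.natDegree ≤ N ∧
      ∀ t : ℝ, f (transvection i j t * Y) = p.eval t) hf ?_ ?_ ?_ ?_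
  · intro a b
    refine ⟨1, fun Y => ⟨Polynomial.C (if a = i then Y j b else 0) * Polynomial.X +
      Polynomial.C (Y a b), Polynomial.natDegree_linear_le, fun t => ?_⟩⟩
    simp only [trans_apply]
    by_cases h : a = i
    · simp only [h, if_true, Polynomial.eval_add, Polynomial.eval_mul, Polynomial.eval_C,
        Polynomial.eval_X]
      ring
    · simp only [h, if_false, Polynomial.eval_add, Polynomial.eval_mul, Polynomial.eval_C,
        Polynomial.eval_X]
      ring
  · intro c
    exact ⟨0, fun Y => ⟨Polynomial.C c, by simp, fun t => by simp⟩⟩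
  · rintro f g _ _ ⟨N, hN⟩ ⟨N', hN'⟩
    refine ⟨max N N', fun Y => ?_⟩
    obtain ⟨p, hp, hp2⟩ := hN Y
    obtain ⟨q, hq, hq2⟩ := hN' Y
    refine ⟨p + q, (Polynomial.natDegree_add_le p q).trans (max_le_max hp hq), fun t => ?_⟩
    simp only
    rw [Polynomial.eval_add, hp2, hq2]
  · rintro f g _ _ ⟨N, hN⟩ ⟨N', hN'⟩
    refine ⟨N + N', fun Y => ?_⟩
    obtain ⟨p, hp, hp2⟩ := hN Y
    obtain ⟨q, hq, hq2⟩ := hN' Y
    refine ⟨p * q, Polynomial.natDegree_mul_le.trans (add_le_add hp hq), fun t => ?_⟩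
    simp only
    rw [Polynomial.eval_mul, hp2, hq2]

/-- Near each of its points `W` contains pairs whose difference is a small multiple of a row `j`
added to the row `i`. -/
def Sm (W : Set (Matrix (Fin n) (Fin n) ℝ)) (i j : Fin n) : Prop :=
  ∀ Y ∈ W, ∀ U ∈ 𝓝 Y, ∀ δ : ℝ, 0 < δ → ∃ Y' ∈ W, Y' ∈ U ∧ ∃ t : ℝ, t ≠ 0 ∧ |t| < δ ∧
    transvection i j t * Y' ∈ W

/-- the derivative vanishes -/
lemma deriv_zero {W : Set (Matrix (Fin n) (Fin n) ℝ)} {i j : Fin n} (hij : i ≠ j)
    (hW : Sm W i j) {f g : Matrix (Fin n) (Fin n) ℝ → ℝ} (hf : ∀ Y ∈ W, f Y = 0) (hg : g ∈ PF n)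
    (hfg : ∀ Y, HasDerivAt (fun t : ℝ => f (transvection i j t * Y)) (g Y) 0)
    {Y : Matrix (Fin n) (Fin n) ℝ} (hY : Y ∈ W) : g Y = 0 := by
  have hfg' : ∀ Y (t : ℝ), HasDerivAt (fun t : ℝ => f (transvection i j t * Y))
      (g (transvection i j t * Y)) t := by
    intro Y t
    have h1 := hfg (transvection i j t * Y)
    have h2 : HasDerivAt (fun s : ℝ => s - t) 1 t := (hasDerivAt_id t).sub_const t
    have h3 := HasDerivAt.comp t (h₂ := fun t_1 : ℝ => f (transvection i j t_1 *
      (transvection i j t * Y))) (h := fun s : ℝ => s - t) (by rw [sub_self]; exact h1) h2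
    rw [mul_one] at h3
    refine h3.congr_of_eventuallyEq (Eventually.of_forall fun s => ?_)
    simp only [Function.comp]
    rw [← Matrix.mul_assoc, Matrix.transvection_mul_transvection_same _ _ hij, sub_add_cancel]
  by_contra hne
  have hcont : Continuous (fun p : ℝ × Matrix (Fin n) (Fin n) ℝ =>
      g (transvection i j p.1 * p.2)) := by
    refine (PF_continuous hg).comp ?_
    refine continuous_pi fun a => continuous_pi fun b => ?_
    simp only [trans_apply]
    have h1 : ∀ a b, Continuous fun p : ℝ × Matrix (Fin n) (Fin n) ℝ => p.2 a b :=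
      fun a b => (continuous_apply_apply a b).comp continuous_snd
    refine (h1 a b).add ?_
    split_ifs
    · exact continuous_fst.mul (h1 j b)
    · exact continuous_const
  have hopen : {p : ℝ × Matrix (Fin n) (Fin n) ℝ | g (transvection i j p.1 * p.2) ≠ 0} ∈
      𝓝 ((0 : ℝ), Y) := by
    refine (isOpen_ne_fun hcont continuous_const).mem_nhds ?_
    show g (transvection i j 0 * Y) ≠ 0
    rw [trans_zero, Matrix.one_mul]
    exact hne
  rw [nhds_prod_eq, Filter.mem_prod_iff] at hopen
  obtain ⟨A, hA, U, hU, hAU⟩ := hopen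
  obtain ⟨δ, hδ, hδA⟩ := Metric.mem_nhds_iff.1 hA
  obtain ⟨Y', hY', hY'U, t, ht0, htδ, htW⟩ := hW Y hY U hU δ hδ
  -- Rolle
  have h0 : f (transvection i j 0 * Y') = 0 := by
    rw [trans_zero, Matrix.one_mul]
    exact hf _ hY'
  have h1 : f (transvection i j t * Y') = 0 := hf _ htW
  have hcontf : Continuous (fun t : ℝ => f (transvection i j t * Y')) :=
    continuous_iff_continuousAt.2 fun t => (hfg' Y' t).continuousAt
  obtain ⟨s, hs, hs2⟩ : ∃ s : ℝ, |s| < δ ∧ g (transvection i j s * Y') = 0 := by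
    rcases lt_or_gt_of_ne ht0 with h | h
    · obtain ⟨s, hs, hs2⟩ := exists_hasDerivAt_eq_zero
        (f' := fun s => g (transvection i j s * Y')) h hcontf.continuousOn (by rw [h0, h1])
        (fun x _ => hfg' Y' x)
      refine ⟨s, ?_, hs2⟩
      rw [abs_of_neg hs.2]
      rw [abs_of_neg h] at htδ
      linarith [hs.1]
    · obtain ⟨s, hs, hs2⟩ := exists_hasDerivAt_eq_zero
        (f' := fun s => g (transvection i j s * Y')) h hcontf.continuousOn (by rw [h0, h1])
        (fun x _ => hfg' Y' x)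
      refine ⟨s, ?_, hs2⟩
      rw [abs_of_pos hs.1]
      rw [abs_of_pos h] at htδ
      linarith [hs.2]
  have hsA : s ∈ A := hδA (by rw [Metric.mem_ball, Real.dist_eq, sub_zero]; exact hs)
  exact hAU (Set.mk_mem_prod hsA hY'U) hs2

/-- a polynomial function which vanishes on `W` vanishes on the lines in the direction `(i, j)` -/
theorem trans_zero_of {W : Set (Matrix (Fin n) (Fin n) ℝ)} {i j : Fin n} (hij : i ≠ j)
    (hW : Sm W i j) {f : Matrix (Fin n) (Fin n) ℝ → ℝ} (hf : f ∈ PF n)
    (hfW : ∀ Y ∈ W, f Y = 0) (t : ℝ) {Y : Matrix (Fin n) (Fin n) ℝ} (hY : Y ∈ W) :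
    f (transvection i j t * Y) = 0 := by
  have key : ∀ N : ℕ, ∀ f ∈ PF n, (∀ Y ∈ W, f Y = 0) →
      (∀ Y, ∃ p : Polynomial ℝ, p.natDegree ≤ N ∧
        ∀ t : ℝ, f (transvection i j t * Y) = p.eval t) →
      ∀ Y ∈ W, ∀ t : ℝ, f (transvection i j t * Y) = 0 := by
    intro N
    induction N with
    | zero =>
      intro f hf hfW hdeg Y hY t
      obtain ⟨p, hp, hp2⟩ := hdeg Y
      rw [Nat.le_zero] at hp
      rw [Polynomial.eq_C_of_natDegree_eq_zero hp] at hp2
      rw [hp2, Polynomial.eval_C, ← Polynomial.eval_C (x := (0 : ℝ)) (a := p.coeff 0), ← hp2,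
        trans_zero, Matrix.one_mul]
      exact hfW Y hY
    | succ N ih =>
      intro f hf hfW hdeg Y hY t
      obtain ⟨g, hg, hfg⟩ := PF_deriv hf i j
      have hgW : ∀ Y ∈ W, g Y = 0 := fun Y hY => deriv_zero hij hW hfW hg hfg hY
      have hderiv : ∀ Y (p : Polynomial ℝ), (∀ t : ℝ, f (transvection i j t * Y) = p.eval t) →
          ∀ t : ℝ, g (transvection i j t * Y) = p.derivative.eval t := by
        intro Y p hp t
        have h1 := hfg (transvection i j t * Y)
        have h2 : (fun s : ℝ => f (transvection i j s * (transvection i j t * Y))) =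
            fun s => p.eval (s + t) := by
          funext s
          rw [← Matrix.mul_assoc, Matrix.transvection_mul_transvection_same _ _ hij, hp]
        rw [h2] at h1
        have h3 : HasDerivAt (fun s : ℝ => p.eval (s + t)) (p.derivative.eval t) 0 := by
          have h4 : HasDerivAt (fun s : ℝ => s + t) 1 0 := (hasDerivAt_id (0 : ℝ)).add_const t
          have h5 := HasDerivAt.comp (0 : ℝ) (h₂ := fun x : ℝ => p.eval x)
            (h := fun s : ℝ => s + t) (h₂' := p.derivative.eval t)
            (by rw [zero_add]; exact p.hasDerivAt t) h4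
          rw [mul_one] at h5
          exact h5
        exact h1.unique h3
      have hgdeg : ∀ Y, ∃ p : Polynomial ℝ, p.natDegree ≤ N ∧
          ∀ t : ℝ, g (transvection i j t * Y) = p.eval t := by
        intro Y
        obtain ⟨p, hp, hp2⟩ := hdeg Y
        refine ⟨p.derivative, ?_, hderiv Y p hp2⟩
        have := Polynomial.natDegree_derivative_le p
        omega
      have hg0 := ih g hg hgW hgdeg Y hY
      obtain ⟨p, -, hp2⟩ := hdeg Y
      have hp0 : p.derivative = 0 := by
        apply Polynomial.funext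
        intro s
        rw [← hderiv Y p hp2 s, hg0 s, Polynomial.eval_zero]
      have hpd := Polynomial.derivative_eq_zero.1 hp0
      rw [Polynomial.eq_C_of_natDegree_eq_zero hpd] at hp2
      rw [hp2, Polynomial.eval_C, ← Polynomial.eval_C (x := (0 : ℝ)) (a := p.coeff 0), ← hp2,
        trans_zero, Matrix.one_mul]
      exact hfW Y hY
  obtain ⟨N, hN⟩ := PF_degree hf i j
  exact key N f hf hfW hN Y hY t

end Pool.Agent.H202.ZR
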