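import Mathlib
import Pool.Agent.H202.ZR.Trans

/-!
# Polynomial functions which vanish on a rich set vanish on its block translates
-/

set_option autoImplicit false

open Matrix Finset Filter Topology

namespace Pool.Agent.H202.ZR

variable {n : ℕ}

/-- block matrices -/
def Bl (R : Fin n → Fin n → Prop) (X : Matrix (Fin n) (Fin n) ℝ) : Prop :=
  ∀ i j, ¬ R i j → X i j = 0

/-- a function which separates the classes -/
lemma exists_sep {R : Fin n → Fin n → Prop} (hR : Equivalence R) :
    ∃ c : Fin n → ℝ, ∀ i j, c i = c j ↔ R i j := by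
  classical
  let s : Setoid (Fin n) := ⟨R, hR⟩
  refine ⟨fun i => (((Quotient.mk s i).out : Fin n) : ℕ), fun i j => ?_⟩
  constructor
  · intro h
    simp only at h
    have h1 : ((Quotient.mk s i).out : Fin n) = (Quotient.mk s j).out := by
      apply Fin.ext
      exact_mod_cast h
    have h2 := congrArg (Quotient.mk s) h1
    rw [Quotient.out_eq, Quotient.out_eq] at h2
    exact Quotient.exact h2
  · intro h
    have h1 : Quotient.mk s i = Quotient.mk s j := Quotient.sound h
    simp only
    rw [h1]

lemma Bl_inv {R : Fin n → Fin n → Prop} (hR : Equivalence R) {X : Matrix (Fin n) (Fin n) ℝ}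
    (hu : IsUnit X.det) (hX : Bl R X) : Bl R X⁻¹ := by
  obtain ⟨c, hc⟩ := exists_sep hR
  have h1 : X * diagonal c = diagonal c * X := by
    ext i j
    rw [Matrix.mul_diagonal, Matrix.diagonal_mul]
    by_cases h : R i j
    · rw [(hc i j).2 h, mul_comm]
    · rw [hX i j h, zero_mul, mul_zero]
  have h2 : diagonal c * X⁻¹ = X⁻¹ * diagonal c := by
    calc diagonal c * X⁻¹ = X⁻¹ * X * (diagonal c * X⁻¹) := by
          rw [Matrix.nonsing_inv_mul _ hu, Matrix.one_mul]
      _ = X⁻¹ * (X * diagonal c) * X⁻¹ := by simp only [Matrix.mul_assoc]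
      _ = X⁻¹ * (diagonal c * X) * X⁻¹ := by rw [h1]
      _ = X⁻¹ * diagonal c * (X * X⁻¹) := by simp only [Matrix.mul_assoc]
      _ = X⁻¹ * diagonal c := by rw [Matrix.mul_nonsing_inv _ hu, Matrix.mul_one]
  intro i j hij
  have h3 := congrFun (congrFun h2 i) j
  rw [Matrix.mul_diagonal, Matrix.diagonal_mul] at h3
  have h4 : c i ≠ c j := fun h => hij ((hc i j).1 h)
  have h5 : (c i - c j) * X⁻¹ i j = 0 := by rw [sub_mul, h3]; ring
  exact (mul_eq_zero.1 h5).resolve_left (sub_ne_zero.2 h4)

/-- `X` maps the Zariski closure of `W` to itself. -/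
def St (W : Set (Matrix (Fin n) (Fin n) ℝ)) (X : Matrix (Fin n) (Fin n) ℝ) : Prop :=
  ∀ f ∈ PF n, (∀ Y ∈ W, f Y = 0) → ∀ Y ∈ W, f (X * Y) = 0

lemma St.mul {W : Set (Matrix (Fin n) (Fin n) ℝ)} {X X' : Matrix (Fin n) (Fin n) ℝ}
    (h : St W X) (h' : St W X') : St W (X * X') := by
  intro f hf hfW Y hY
  have h1 : f (X * (X' * Y)) = 0 :=
    h' (fun Y => f (X * Y)) (PF_mul_left hf X) (h f hf hfW) Y hY
  rw [Matrix.mul_assoc]
  exact h1

lemma St.one {W : Set (Matrix (Fin n) (Fin n) ℝ)} : St W 1 := by
  intro f _ hfW Y hY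
  rw [Matrix.one_mul]
  exact hfW Y hY

/-- replacing one row of the unit matrix -/
lemma St_row {W : Set (Matrix (Fin n) (Fin n) ℝ)} {R : Fin n → Fin n → Prop}
    (hdiag : ∀ b : Fin n → ℝ, (∀ i, b i ≠ 0) → ∀ Y ∈ W, diagonal b * Y ∈ W)
    (hSm : ∀ i j, i ≠ j → R i j → Sm W i j) (i : Fin n) (v : Fin n → ℝ) (hv : v i ≠ 0)
    (hvR : ∀ j, j ≠ i → ¬ R i j → v j = 0) :
    St W ((1 : Matrix (Fin n) (Fin n) ℝ).updateRow i v) ∧
      ((1 : Matrix (Fin n) (Fin n) ℝ).updateRow i v).det = v i := by
  classical
  have key : ∀ J : Finset (Fin n), i ∉ J →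
      St W ((1 : Matrix (Fin n) (Fin n) ℝ).updateRow i
        (fun j => if j = i ∨ j ∈ J then v j else 0)) ∧
      ((1 : Matrix (Fin n) (Fin n) ℝ).updateRow i
        (fun j => if j = i ∨ j ∈ J then v j else 0)).det = v i := by
    intro J
    induction J using Finset.induction_on with
    | empty =>
      intro _
      have h1 : (1 : Matrix (Fin n) (Fin n) ℝ).updateRow i
          (fun j => if j = i ∨ j ∈ (∅ : Finset (Fin n)) then v j else 0) =
          diagonal (Function.update (fun _ => (1 : ℝ)) i (v i)) := by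
        ext a b
        by_cases ha : a = i
        · subst ha
          rw [Matrix.updateRow_self]
          by_cases hb : b = a
          · subst hb
            simp
          · rw [Matrix.diagonal_apply_ne _ (Ne.symm hb)]
            simp [hb]
        · rw [Matrix.updateRow_ne ha]
          by_cases hb : b = a
          · subst hb
            rw [Matrix.diagonal_apply_eq, Matrix.one_apply_eq, Function.update_of_ne ha]
          · rw [Matrix.diagonal_apply_ne _ (Ne.symm hb), Matrix.one_apply_ne (Ne.symm hb)]
      rw [h1]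
      constructor
      · intro f _ hfW Y hY
        refine hfW _ (hdiag _ (fun l => ?_) Y hY)
        by_cases hl : l = i
        · subst hl
          rw [Function.update_self]
          exact hv
        · rw [Function.update_of_ne hl]
          exact one_ne_zero
      · rw [Matrix.det_diagonal, Finset.prod_eq_single i]
        · rw [Function.update_self]
        · intro l _ hl
          rw [Function.update_of_ne hl]
        · intro h
          exact absurd (Finset.mem_univ _) h
    | insert j J hj ih =>
      intro hi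
      rw [Finset.mem_insert, not_or] at hi
      obtain ⟨hij, hiJ⟩ := hi
      obtain ⟨ih1, ih2⟩ := ih hiJ
      have h1 : (1 : Matrix (Fin n) (Fin n) ℝ).updateRow i
          (fun l => if l = i ∨ l ∈ insert j J then v l else 0) =
          transvection i j (v j) * (1 : Matrix (Fin n) (Fin n) ℝ).updateRow i
            (fun l => if l = i ∨ l ∈ J then v l else 0) := by
        ext a b
        rw [trans_apply]
        by_cases ha : a = i
        · subst ha
          rw [Matrix.updateRow_self, Matrix.updateRow_self, Matrix.updateRow_ne (Ne.symm hij),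
            if_pos rfl]
          by_cases hb : b = j
          · subst hb
            rw [Matrix.one_apply_eq, if_pos (Or.inr (Finset.mem_insert_self _ _)), if_neg]
            · ring
            · rintro (h | h)
              · exact hij h.symm
              · exact hj h
          · rw [Matrix.one_apply_ne (Ne.symm hb), mul_zero, add_zero]
            simp only [Finset.mem_insert, hb, false_or]
        · rw [Matrix.updateRow_ne ha, Matrix.updateRow_ne ha, if_neg ha, add_zero]
      rw [h1]
      constructor
      · refine St.mul ?_ ih1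
        by_cases hRij : R i j
        · exact fun f hf hfW Y hY => trans_zero_of hij (hSm i j hij hRij) hf hfW (v j) hY
        · rw [hvR j (Ne.symm hij) hRij, trans_zero]
          exact St.one
      · rw [Matrix.det_mul, Matrix.det_transvection_of_ne _ _ hij, one_mul]
        exact ih2
  obtain ⟨h1, h2⟩ := key (Finset.univ.erase i) (Finset.notMem_erase _ _)
  have h3 : (fun j => if j = i ∨ j ∈ Finset.univ.erase i then v j else 0) = v := by
    funext j
    rw [if_pos]
    by_cases hj : j = i
    · exact Or.inl hj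
    · exact Or.inr (Finset.mem_erase.2 ⟨hj, Finset.mem_univ _⟩)
  rw [h3] at h1 h2
  exact ⟨h1, h2⟩

/-- the first `k` rows are replaced by the rows of the unit matrix -/
def YY (k : ℕ) (X : Matrix (Fin n) (Fin n) ℝ) : Matrix (Fin n) (Fin n) ℝ :=
  fun i => if (i : ℕ) < k then Pi.single i 1 else X i

lemma YY_one (k : ℕ) : YY k (1 : Matrix (Fin n) (Fin n) ℝ) = 1 := by
  ext i j
  unfold YY
  by_cases h : (i : ℕ) < k
  · rw [if_pos h, Matrix.one_apply, Pi.single_apply]
    by_cases hij : i = j
    · rw [if_pos hij, if_pos hij.symm]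
    · rw [if_neg hij, if_neg (Ne.symm hij)]
  · rw [if_neg h]

lemma YY_last (X : Matrix (Fin n) (Fin n) ℝ) : YY n X = 1 := by
  ext i j
  unfold YY
  rw [if_pos i.2, Matrix.one_apply, Pi.single_apply]
  by_cases hij : i = j
  · rw [if_pos hij, if_pos hij.symm]
  · rw [if_neg hij, if_neg (Ne.symm hij)]

lemma YY_zero (X : Matrix (Fin n) (Fin n) ℝ) : YY 0 X = X := by
  funext i
  unfold YY
  rw [if_neg (Nat.not_lt_zero _)]

lemma YY_Bl {R : Fin n → Fin n → Prop} (hR : Equivalence R) (k : ℕ)
    {X : Matrix (Fin n) (Fin n) ℝ} (hX : Bl R X) : Bl R (YY k X) := by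
  intro i j hij
  unfold YY
  by_cases h : (i : ℕ) < k
  · rw [if_pos h, Pi.single_apply, if_neg]
    rintro rfl
    exact hij (hR.refl _)
  · rw [if_neg h]
    exact hX i j hij

lemma St_of_YY {W : Set (Matrix (Fin n) (Fin n) ℝ)} {R : Fin n → Fin n → Prop}
    (hR : Equivalence R)
    (hdiag : ∀ b : Fin n → ℝ, (∀ i, b i ≠ 0) → ∀ Y ∈ W, diagonal b * Y ∈ W)
    (hSm : ∀ i j, i ≠ j → R i j → Sm W i j) {X : Matrix (Fin n) (Fin n) ℝ} (hX : Bl R X)
    (hdet : ∀ k ≤ n, (YY k X).det ≠ 0) : St W X := by
  have key : ∀ k ≤ n, St W (YY (n - k) X) := by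
    intro k
    induction k with
    | zero =>
      intro _
      rw [Nat.sub_zero, YY_last]
      exact St.one
    | succ k ih =>
      intro hk
      have ih' := ih (by omega)
      set m := n - (k + 1) with hm
      have hm1 : n - k = m + 1 := by omega
      rw [hm1] at ih'
      have hmn : m < n := by omega
      set i : Fin n := ⟨m, hmn⟩ with hi
      have hu : IsUnit (YY (m + 1) X).det := isUnit_iff_ne_zero.2 (hdet _ (by omega))
      set v : Fin n → ℝ := X i ᵥ* (YY (m + 1) X)⁻¹ with hv
      have hprod : YY m X = (1 : Matrix (Fin n) (Fin n) ℝ).updateRow i v * YY (m + 1) X := by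
        funext a
        by_cases ha : a = i
        · subst ha
          have h1 : ((1 : Matrix (Fin n) (Fin n) ℝ).updateRow i v * YY (m + 1) X) i =
              ((1 : Matrix (Fin n) (Fin n) ℝ).updateRow i v) i ᵥ* YY (m + 1) X := rfl
          rw [h1, Matrix.updateRow_self, hv, Matrix.vecMul_vecMul, Matrix.nonsing_inv_mul _ hu,
            Matrix.vecMul_one]
          unfold YY
          rw [if_neg]
          simp [hi]
        · have h1 : ((1 : Matrix (Fin n) (Fin n) ℝ).updateRow i v * YY (m + 1) X) a =
              ((1 : Matrix (Fin n) (Fin n) ℝ).updateRow i v) a ᵥ* YY (m + 1) X := rfl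
          rw [h1, Matrix.updateRow_ne ha]
          have h2 : (1 : Matrix (Fin n) (Fin n) ℝ) a ᵥ* YY (m + 1) X =
              ((1 : Matrix (Fin n) (Fin n) ℝ) * YY (m + 1) X) a := rfl
          rw [h2, Matrix.one_mul]
          unfold YY
          have h3 : (a : ℕ) ≠ m := fun h => ha (Fin.ext h)
          by_cases h4 : (a : ℕ) < m
          · rw [if_pos h4, if_pos (by omega)]
          · rw [if_neg h4, if_neg (by omega)]
      have hvR : ∀ j, ¬ R i j → v j = 0 := by
        intro j hj
        rw [hv, Matrix.vecMul, dotProduct]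
        refine Finset.sum_eq_zero fun l _ => ?_
        by_cases hl : R i l
        · have h1 : ¬ R l j := fun h => hj (hR.trans hl h)
          rw [Bl_inv hR hu (YY_Bl hR (m + 1) hX) l j h1, mul_zero]
        · rw [hX i l hl, zero_mul]
      have hdetrow : ∀ w : Fin n → ℝ,
          ((1 : Matrix (Fin n) (Fin n) ℝ).updateRow i w).det = w i := by
        intro w
        rw [← Matrix.cramer_transpose_apply, Matrix.transpose_one, Matrix.cramer_one]
        rfl
      have hvi : v i ≠ 0 := by
        intro h0
        have h1 := hdet m (by omega)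
        rw [hprod, Matrix.det_mul, hdetrow, h0, zero_mul] at h1
        exact h1 rfl
      rw [hprod]
      exact (St_row hdiag hSm i v hvi (fun j _ hj => hvR j hj)).1.mul ih'
  have h1 := key n le_rfl
  rw [Nat.sub_self, YY_zero] at h1
  exact h1

/-- **A polynomial function which vanishes on a rich set vanishes on its block translates.** -/
theorem block_zero {W : Set (Matrix (Fin n) (Fin n) ℝ)} {R : Fin n → Fin n → Prop}
    (hR : Equivalence R)
    (hdiag : ∀ b : Fin n → ℝ, (∀ i, b i ≠ 0) → ∀ Y ∈ W, diagonal b * Y ∈ W)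
    (hSm : ∀ i j, i ≠ j → R i j → Sm W i j) {f : Matrix (Fin n) (Fin n) ℝ → ℝ} (hf : f ∈ PF n)
    (hfW : ∀ Y ∈ W, f Y = 0) {X : Matrix (Fin n) (Fin n) ℝ} (hX : Bl R X)
    {Y : Matrix (Fin n) (Fin n) ℝ} (hY : Y ∈ W) : f (X * Y) = 0 := by
  set Z : ℝ → Matrix (Fin n) (Fin n) ℝ := fun t => 1 + t • (X - 1) with hZ
  have hZc : Continuous Z := continuous_const.add (continuous_id.smul continuous_const)
  have hZ0 : Z 0 = 1 := by simp [hZ]
  have hZBl : ∀ t, Bl R (Z t) := by
    intro t i j hij
    have h1 : (1 : Matrix (Fin n) (Fin n) ℝ) i j = 0 := by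
      apply Matrix.one_apply_ne
      rintro rfl
      exact hij (hR.refl _)
    simp only [hZ, Matrix.add_apply, Matrix.smul_apply, Matrix.sub_apply, h1, hX i j hij]
    simp
  have hev : ∀ᶠ t in 𝓝 (0 : ℝ), ∀ k ∈ Finset.range (n + 1), (YY k (Z t)).det ≠ 0 := by
    rw [Filter.eventually_all_finset]
    intro k _
    have hc : Continuous fun t => (YY k (Z t)).det := by
      refine Continuous.matrix_det (continuous_pi fun i => ?_)
      unfold YY
      by_cases h : (i : ℕ) < k
      · simp only [if_pos h]
        exact continuous_const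
      · simp only [if_neg h]
        exact (continuous_apply i).comp hZc
    have h1 : (YY k (Z 0)).det ≠ 0 := by
      rw [hZ0, YY_one, Matrix.det_one]
      exact one_ne_zero
    exact hc.continuousAt.eventually_ne h1
  obtain ⟨r, hr, hr2⟩ := Metric.eventually_nhds_iff.1 hev
  have h1 := PF_line_zero hf Y ((X - 1) * Y) hr (fun t ht => ?_) 1
  · have h2 : Y + (1 : ℝ) • ((X - 1) * Y) = X * Y := by
      rw [one_smul, Matrix.sub_mul, Matrix.one_mul]
      abel
    rwa [h2] at h1
  · have h2 : Y + t • ((X - 1) * Y) = Z t * Y := by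
      simp only [hZ]
      rw [Matrix.add_mul, Matrix.one_mul, Matrix.smul_mul]
    rw [h2]
    refine St_of_YY hR hdiag hSm (hZBl t) (fun k hk => ?_) f hf hfW Y hY
    exact hr2 (by rw [Real.dist_eq, sub_zero]; exact ht) k (Finset.mem_range.2 (by omega))

end Pool.Agent.H202.ZR
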