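import Mathlib

/-!
# Generic directions
-/

set_option autoImplicit false

open Finset

namespace Pool.Agent.H202.ZR

variable {n : ℕ}

lemma exists_vec (i₀ : Fin n) {K : ℕ} {T : Finset (Fin n → ℕ)} (hT : ∀ q ∈ T, q i₀ = K) :
    ∃ v : Fin n → ℝ, ∑ i, v i = 0 ∧
      ∀ q ∈ T, ∀ q' ∈ T, q ≠ q' → ∑ i, v i * ((q i : ℝ) - q' i) ≠ 0 := by
  classical
  set p : (Fin n → ℕ) × (Fin n → ℕ) → Polynomial ℝ := fun r =>
    ∑ i : Fin n, Polynomial.C ((r.1 i : ℝ) - r.2 i) * Polynomial.X ^ (i : ℕ) with hp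
  have hp0 : ∀ r : (Fin n → ℕ) × (Fin n → ℕ), r.1 ≠ r.2 → p r ≠ 0 := by
    intro r hr h0
    apply hr
    funext i
    have h1 : (p r).coeff (i : ℕ) = 0 := by rw [h0, Polynomial.coeff_zero]
    simp only [hp, Polynomial.finsetSum_coeff, Polynomial.coeff_C_mul, Polynomial.coeff_X_pow] at h1
    rw [Finset.sum_eq_single i] at h1
    · rw [if_pos rfl, mul_one, sub_eq_zero] at h1
      exact_mod_cast h1
    · intro j _ hj
      rw [if_neg, mul_zero]
      exact fun h => hj (Fin.ext h.symm)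
    · intro h
      exact absurd (Finset.mem_univ _) h
  set P : Polynomial ℝ := ∏ r ∈ (T ×ˢ T).filter (fun r => r.1 ≠ r.2), p r with hP
  have hP0 : P ≠ 0 := Finset.prod_ne_zero_iff.2 fun r hr => hp0 r (Finset.mem_filter.1 hr).2
  obtain ⟨B, hB⟩ : ∃ B : ℝ, P.eval B ≠ 0 := by
    by_contra hcon
    push Not at hcon
    exact hP0 (Polynomial.funext fun x => by rw [hcon x, Polynomial.eval_zero])
  rw [hP, Polynomial.eval_prod, Finset.prod_ne_zero_iff] at hB
  refine ⟨fun i => B ^ (i : ℕ) - if i = i₀ then ∑ j : Fin n, B ^ (j : ℕ) else 0, ?_, ?_⟩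
  · rw [Finset.sum_sub_distrib, Finset.sum_ite_eq' Finset.univ i₀, if_pos (Finset.mem_univ _),
      sub_self]
  · intro q hq q' hq' hne
    have h1 := hB (q, q') (Finset.mem_filter.2 ⟨Finset.mk_mem_product hq hq', hne⟩)
    have h2 : (p (q, q')).eval B = ∑ i : Fin n, B ^ (i : ℕ) * ((q i : ℝ) - q' i) := by
      simp only [hp, Polynomial.eval_finsetSum, Polynomial.eval_mul, Polynomial.eval_C,
        Polynomial.eval_pow, Polynomial.eval_X]
      exact Finset.sum_congr rfl fun i _ => mul_comm _ _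
    rw [h2] at h1
    have h3 : ∑ i : Fin n, (B ^ (i : ℕ) - if i = i₀ then ∑ j : Fin n, B ^ (j : ℕ) else 0) *
        ((q i : ℝ) - q' i) = ∑ i : Fin n, B ^ (i : ℕ) * ((q i : ℝ) - q' i) := by
      refine Finset.sum_congr rfl fun i _ => ?_
      by_cases hi : i = i₀
      · subst hi
        rw [hT q hq, hT q' hq', sub_self, mul_zero, mul_zero]
      · rw [if_neg hi, sub_zero]
    rw [h3]
    exact h1

lemma exists_generic (i₀ : Fin n) {K : ℕ} {T : Finset (Fin n → ℕ)} (hT : ∀ q ∈ T, q i₀ = K)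
    {α : Fin n → ℝ} (hα : ∑ i, α i = 0) {ε : ℝ} (hε : 0 < ε) :
    ∃ β : Fin n → ℝ, ∑ i, β i = 0 ∧ (∀ i, |β i - α i| ≤ ε) ∧
      ∀ q ∈ T, ∀ q' ∈ T, q ≠ q' → ∑ i, β i * ((q i : ℝ) - q' i) ≠ 0 := by
  classical
  obtain ⟨v, hv, hv2⟩ := exists_vec i₀ hT
  set S : ℝ := 1 + ∑ i, |v i| with hS
  have hS0 : 0 < S := by
    have : 0 ≤ ∑ i, |v i| := Finset.sum_nonneg fun _ _ => abs_nonneg _
    linarith
  set bad : Finset ℝ := ((T ×ˢ T).image fun r =>
    -(∑ i, α i * ((r.1 i : ℝ) - r.2 i)) / ∑ i, v i * ((r.1 i : ℝ) - r.2 i)) with hbad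
  obtain ⟨τ, hτ, hτ2⟩ := (Set.Ioo_infinite (show (0 : ℝ) < ε / S by positivity)).exists_notMem_finset
    bad
  refine ⟨fun i => α i + τ * v i, ?_, fun i => ?_, fun q hq q' hq' hne h0 => ?_⟩
  · rw [Finset.sum_add_distrib, ← Finset.mul_sum, hα, hv]
    ring
  · rw [add_sub_cancel_left, abs_mul, abs_of_pos hτ.1]
    have h1 : |v i| ≤ S := by
      have := Finset.single_le_sum (f := fun i => |v i|) (fun _ _ => abs_nonneg _)
        (Finset.mem_univ i)
      linarith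
    have h2 : τ * S ≤ ε := by
      rw [← le_div_iff₀ hS0]
      exact hτ.2.le
    exact (mul_le_mul_of_nonneg_left h1 hτ.1.le).trans h2
  · apply hτ2
    rw [hbad, Finset.mem_image]
    refine ⟨(q, q'), Finset.mk_mem_product hq hq', ?_⟩
    have h1 : ∑ i, (α i + τ * v i) * ((q i : ℝ) - q' i) = ∑ i, α i * ((q i : ℝ) - q' i) +
        τ * ∑ i, v i * ((q i : ℝ) - q' i) := by
      rw [Finset.mul_sum, ← Finset.sum_add_distrib]
      exact Finset.sum_congr rfl fun i _ => by ring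
    rw [h1] at h0
    simp only
    rw [div_eq_iff (hv2 q hq q' hq' hne)]
    linarith

end Pool.Agent.H202.ZR
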