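import Mathlib
import Pool.Graph.R_seed8.Y327.Basic

/-!
# The orbit of a point of a minimal set in a cone of directions is dense
-/

set_option autoImplicit false

open Matrix Finset Filter Topology

namespace Pool.Agent.H202.ZR

open Pool.Agent.Y327 H715R2

variable {d : ℕ}

/-- the part of the orbit of `h` which is given by diagonal matrices near the ray `α`, far out -/
def Ray (h : Matrix (Fin d) (Fin d) ℝ) (α : Fin d → ℝ) (T : ℕ) :
    Set (Matrix (Fin d) (Fin d) ℝ) :=
  {Y | ∃ (a : Fin d → ℝ) (γ : Matrix (Fin d) (Fin d) ℤ) (s : ℝ), (∀ i, 0 < a i) ∧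
    ∏ i, a i = 1 ∧ IsUnit γ.det ∧ (T + 1 : ℝ) ≤ s ∧
    (∀ i, |Real.log (a i) - s * α i| ≤ s / (T + 1)) ∧ Y = diagonal a * h * zR γ}

lemma Ray_anti {h : Matrix (Fin d) (Fin d) ℝ} {α : Fin d → ℝ} {T T' : ℕ} (hT : T ≤ T') :
    Ray h α T' ⊆ Ray h α T := by
  rintro _ ⟨a, γ, s, ha, ha1, hγ, hs, hs2, rfl⟩
  have h1 : (T : ℝ) ≤ T' := by exact_mod_cast hT
  have h0 : (0 : ℝ) ≤ T := Nat.cast_nonneg _
  refine ⟨a, γ, s, ha, ha1, hγ, by linarith, fun i => (hs2 i).trans ?_, rfl⟩
  exact div_le_div_of_nonneg_left (by linarith) (by linarith) (by linarith)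

theorem dense_ray (hd : 0 < d) {V ν : ℝ} (hV : 0 < V) (hν : 0 < ν)
    {M : Set (Matrix (Fin d) (Fin d) ℝ)} (hM : MinB id M) (hMdet : ∀ h ∈ M, |h.det| = V)
    (hMnu : ∀ h ∈ M, HasNu h ν) {h : Matrix (Fin d) (Fin d) ℝ} (hh : h ∈ M) {α : Fin d → ℝ}
    (hα : ∑ i, α i = 0) (T : ℕ) {Y : Matrix (Fin d) (Fin d) ℝ} (hY : Y ∈ M) :
    Y ∈ closure (Ray h α T) := by
  have hsub : ∀ T, Ray h α T ⊆ M := by
    rintro T _ ⟨a, γ, s, ha, ha1, hγ, -, -, rfl⟩
    exact inv_of_invB hM.inv h hh a γ ha ha1 hγ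
  have hcsub : ∀ T, closure (Ray h α T) ⊆ M := fun T => closure_minimal (hsub T) hM.closed
  set Z : Set (Matrix (Fin d) (Fin d) ℝ) := ⋂ T, closure (Ray h α T) with hZ
  have hZM : Z ⊆ M := (Set.iInter_subset _ 0).trans (hcsub 0)
  have hZc : IsClosed Z := isClosed_iInter fun _ => isClosed_closure
  obtain ⟨R, hR⟩ := exists_bound hd V ν hV hν
  have hZne : Z.Nonempty := by
    have h1 : (⋂ T, (closure (Ray h α T) ∩ {h : Matrix (Fin d) (Fin d) ℝ |
        ∀ i j, |h i j| ≤ R})).Nonempty := by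
      refine IsCompact.nonempty_iInter_of_sequence_nonempty_isCompact_isClosed _ ?_ ?_ ?_ ?_
      · intro T
        exact Set.inter_subset_inter_left _ (closure_mono (Ray_anti (Nat.le_succ T)))
      · intro T
        have hpos : ∀ i, 0 < Real.exp ((T + 1 : ℝ) * α i) := fun i => Real.exp_pos _
        have hprod : ∏ i, Real.exp ((T + 1 : ℝ) * α i) = 1 := by
          rw [← Real.exp_sum, ← Finset.mul_sum, hα, mul_zero, Real.exp_zero]
        have hmem : diagonal (fun i => Real.exp ((T + 1 : ℝ) * α i)) * h ∈ M := by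
          have h2 := inv_of_invB hM.inv h hh _ 1 hpos hprod (by simp)
          rwa [zR_one, Matrix.mul_one] at h2
        obtain ⟨γ, hγ, hγR⟩ := hR _ (hMdet _ hmem) (hMnu _ hmem)
        refine ⟨_, subset_closure ⟨_, γ, T + 1, hpos, hprod, hγ, le_refl _, fun i => ?_, rfl⟩, hγR⟩
        rw [Real.log_exp, sub_self, abs_zero]
        positivity
      · exact ((isCompact_box R).inter_left isClosed_closure)
      · intro T
        exact isClosed_closure.inter (isCompact_box R).isClosed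
    obtain ⟨Y', hY'⟩ := h1
    refine ⟨Y', Set.mem_iInter.2 fun T => (Set.mem_iInter.1 hY' T).1⟩
  have hZinv : InvB id Z := by
    intro Y' hY' b γ₀ hb hγ₀
    refine Set.mem_iInter.2 fun T => ?_
    obtain ⟨B, hB0, hB⟩ : ∃ B : ℝ, 0 ≤ B ∧ ∀ i, |Real.log (b i)| ≤ B :=
      ⟨∑ i, |Real.log (b i)|, Finset.sum_nonneg fun _ _ => abs_nonneg _, fun i =>
        Finset.single_le_sum (f := fun i => |Real.log (b i)|) (fun _ _ => abs_nonneg _)
          (Finset.mem_univ i)⟩
    obtain ⟨T', hT'⟩ := exists_nat_ge (2 * (T + 1 : ℝ) * (B + 1))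
    have h0 : (0 : ℝ) ≤ T := Nat.cast_nonneg _
    have hTT : (T : ℝ) ≤ T' := by nlinarith
    have hmap : Continuous fun Y : Matrix (Fin d) (Fin d) ℝ => diagonal b * Y * zR γ₀ :=
      (continuous_const.matrix_mul continuous_id).matrix_mul continuous_const
    refine map_mem_closure (f := fun Y : Matrix (Fin d) (Fin d) ℝ => diagonal b * Y * zR γ₀) hmap
      (Set.mem_iInter.1 hY' T') ?_
    rintro _ ⟨a, γ, s, ha, ha1, hγ, hs, hs2, rfl⟩
    refine ⟨fun i => b i * a i, γ * γ₀, s, fun i => mul_pos (hb.1 i) (ha i), ?_, ?_, by linarith,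
      fun i => ?_, ?_⟩
    · rw [Finset.prod_mul_distrib, hb.2.1, ha1, one_mul]
    · rw [Matrix.det_mul]
      exact hγ.mul hγ₀
    · rw [Real.log_mul (hb.1 i).ne' (ha i).ne']
      have h1 := hs2 i
      have h2 := hB i
      have hs0 : 0 < s := by linarith
      have h3 : s / (T' + 1) ≤ s / (T + 1) / 2 := by
        rw [div_div]
        refine div_le_div_of_nonneg_left hs0.le (by positivity) ?_
        nlinarith
      have h4 : B ≤ s / (T + 1) / 2 := by
        rw [div_div, le_div_iff₀ (by positivity)]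
        nlinarith
      have h5 : Real.log (b i) + Real.log (a i) - s * α i =
          Real.log (b i) + (Real.log (a i) - s * α i) := by ring
      rw [h5]
      refine (abs_add_le _ _).trans ?_
      linarith
    · rw [zR_mul, ← Matrix.diagonal_mul_diagonal]
      simp only [Matrix.mul_assoc]
  have hZeq := hM.min Z hZM hZc hZne hZinv
  rw [← hZeq] at hY
  exact Set.mem_iInter.1 hY T

end Pool.Agent.H202.ZR
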