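import Mathlib
import Pool.Agent.H202.ZR.Cone
import Pool.Agent.H202.ZR.Gener
import Pool.Agent.H202.ZR.Stab
import Pool.Graph.R_pool_sql_team_seeded_2aa45f1a.Q34.CSD.ThinMat

/-!
# The Zariski closure of the near returns
-/

set_option autoImplicit false

open Matrix Finset Filter Topology

namespace Pool.Agent.H202.ZR

open Pool.Agent.Y327 H715R2

variable {d : ℕ}

/-- the homogeneous parts vanish on a piece of the minimal set -/
theorem parts_core {M : Set (Matrix (Fin d) (Fin d) ℝ)} (hM : MinB id M)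
    {h : Matrix (Fin d) (Fin d) ℝ} (hh : h ∈ M)
    {U : Set (Matrix (Fin d) (Fin d) ℝ)} (hU : IsOpen U)
    (hUdet : ∀ Y ∈ U, Y ∈ M → Y.det = h.det)
    {f : Matrix (Fin d) (Fin d) ℝ → ℝ} {T : Finset (Fin d → ℕ)}
    {g : (Fin d → ℕ) → Matrix (Fin d) (Fin d) ℝ → ℝ}
    (hg : ∀ q, g q ∈ PF d) (hgH : ∀ q, Hom (q) (g q))
    (hfg : ∀ Y, Y.det = h.det → f Y = ∑ q ∈ T, g q Y) {β : Fin d → ℝ}
    (hgen : ∀ q ∈ T, ∀ q' ∈ T, q ≠ q' → ∑ i, β i * ((q i : ℝ) - q' i) ≠ 0)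
    (hdense : ∀ Y ∈ M, Y ∈ U → ∀ U' : Set (Matrix (Fin d) (Fin d) ℝ), IsOpen U' → Y ∈ U' →
      ∀ N₀ : ℕ, ∃ N, N₀ ≤ N ∧ ∃ (a : Fin d → ℝ) (γ : Matrix (Fin d) (Fin d) ℤ) (s : ℝ),
        (∀ i, 0 < a i) ∧ ∏ i, a i = 1 ∧ IsUnit γ.det ∧ (N + 1 : ℝ) ≤ s ∧
        (∀ i, |Real.log (a i) - s * β i| ≤ s / (N + 1)) ∧ diagonal a * h * zR γ ∈ U' ∧
        f (h * zR γ) = 0) :
    ∀ q ∈ T, ∀ Y ∈ M, Y ∈ U → g q Y = 0 := by
  classical
  by_contra hcon
  push Not at hcon
  obtain ⟨q₀, hq₀, Y₀, hY₀M, hY₀U, hY₀⟩ := hcon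
  set T' : Finset (Fin d → ℕ) := T.filter (fun q => ∃ Y ∈ M, Y ∈ U ∧ g q Y ≠ 0) with hT'
  have hT'ne : T'.Nonempty := ⟨q₀, Finset.mem_filter.2 ⟨hq₀, Y₀, hY₀M, hY₀U, hY₀⟩⟩
  obtain ⟨q, hqT', hqmin⟩ := Finset.exists_min_image T' (fun q => ∑ i, β i * (q i : ℝ)) hT'ne
  obtain ⟨hqT, Y, hYM, hYU, hYq⟩ := Finset.mem_filter.1 hqT'
  set η : ℝ := |g q Y| with hη
  have hη0 : 0 < η := abs_pos.2 hYq
  set C : ℝ := ∑ r ∈ T, (|g r Y| + 1) with hC
  have hCr : ∀ r ∈ T, |g r Y| < C := by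
    intro r hr
    have h1 := Finset.single_le_sum (f := fun r => |g r Y| + 1) (fun r _ => by positivity) hr
    linarith
  set U' : Set (Matrix (Fin d) (Fin d) ℝ) :=
    U ∩ ({Z | η / 2 < |g q Z|} ∩ ⋂ r ∈ T, {Z | |g r Z| < C}) with hU'
  have hU'o : IsOpen U' := by
    refine hU.inter (IsOpen.inter ?_ ?_)
    · exact isOpen_lt continuous_const (PF_continuous (hg q)).abs
    · exact isOpen_biInter_finset fun r _ =>
        isOpen_lt (PF_continuous (hg r)).abs continuous_const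
  have hYU' : Y ∈ U' := by
    refine ⟨hYU, ?_, ?_⟩
    · show η / 2 < |g q Y|
      rw [← hη]
      linarith
    · exact Set.mem_iInter₂.2 fun r hr => hCr r hr
  have hpts : ∀ N : ℕ, ∃ (a : Fin d → ℝ) (γ : Matrix (Fin d) (Fin d) ℤ) (s : ℝ),
        (∀ i, 0 < a i) ∧ ∏ i, a i = 1 ∧ IsUnit γ.det ∧ (N + 1 : ℝ) ≤ s ∧
        (∀ i, |Real.log (a i) - s * β i| ≤ s / (N + 1)) ∧ diagonal a * h * zR γ ∈ U' ∧
        f (h * zR γ) = 0 := by
    intro N
    obtain ⟨N', hN', a, γ, s, ha, ha1, hγ, hs, hs2, hZ, hf0⟩ := hdense Y hYM hYU U' hU'o hYU' N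
    have h1 : (N : ℝ) ≤ N' := by exact_mod_cast hN'
    have h0 : (0 : ℝ) ≤ N := Nat.cast_nonneg _
    refine ⟨a, γ, s, ha, ha1, hγ, by linarith, fun i => (hs2 i).trans ?_, hZ, hf0⟩
    exact div_le_div_of_nonneg_left (by linarith) (by linarith) (by linarith)
  choose a γ s ha ha1 hγ hs hs2 hZU hf0 using hpts
  set Z : ℕ → Matrix (Fin d) (Fin d) ℝ := fun N => diagonal (a N) * h * zR (γ N) with hZdef
  have hZeq : ∀ N, Z N = diagonal (a N) * h * zR (γ N) := fun N => rfl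
  have hZM : ∀ N, Z N ∈ M := by
    intro N
    rw [hZeq N]
    exact inv_of_invB hM.inv h hh (a N) (γ N) (ha N) (ha1 N) (hγ N)
  -- the weights
  set E : (Fin d → ℕ) → ℕ → ℝ := fun r N => ∑ i, ((r i : ℝ) - q i) * Real.log (a N i) with hE
  have hterm : ∀ r ∈ T.erase q, Tendsto (fun N => Real.exp (-E r N) * g r (Z N)) atTop (𝓝 0) := by
    intro r hr
    obtain ⟨hrq, hrT⟩ := Finset.mem_erase.1 hr
    by_cases hrT' : r ∈ T'
    · have hlt : 0 < ∑ i, β i * ((r i : ℝ) - q i) := by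
        have h1 := hqmin r hrT'
        have h2 := hgen r hrT q hqT hrq
        have h3 : ∑ i, β i * ((r i : ℝ) - q i) = ∑ i, β i * (r i : ℝ) - ∑ i, β i * (q i : ℝ) := by
          rw [← Finset.sum_sub_distrib]
          exact Finset.sum_congr rfl fun i _ => by ring
        rw [h3] at h2 ⊢
        rcases lt_or_eq_of_le h1 with h4 | h4
        · linarith
        · exact absurd (by linarith) h2
      set Δ : ℝ := ∑ i, β i * ((r i : ℝ) - q i) with hΔ
      set D : ℝ := ∑ i, |(r i : ℝ) - q i| with hD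
      have hD0 : 0 ≤ D := Finset.sum_nonneg fun _ _ => abs_nonneg _
      have hbound : ∀ᶠ N : ℕ in atTop, (N : ℝ) * (Δ / 2) ≤ E r N := by
        obtain ⟨N₀, hN₀⟩ := exists_nat_ge (2 * D / Δ)
        filter_upwards [Filter.eventually_ge_atTop N₀] with N hN
        have hN1 : (N₀ : ℝ) ≤ N := by exact_mod_cast hN
        have hN0 : (0 : ℝ) ≤ N := Nat.cast_nonneg _
        have h1 : |E r N - s N * Δ| ≤ D * (s N / (N + 1)) := by
          have h2 : E r N - s N * Δ =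
              ∑ i, ((r i : ℝ) - q i) * (Real.log (a N i) - s N * β i) := by
            rw [hE, hΔ, Finset.mul_sum, ← Finset.sum_sub_distrib]
            exact Finset.sum_congr rfl fun i _ => by ring
          rw [h2, hD, Finset.sum_mul]
          refine (Finset.abs_sum_le_sum_abs _ _).trans (Finset.sum_le_sum fun i _ => ?_)
          rw [abs_mul]
          exact mul_le_mul_of_nonneg_left (hs2 N i) (abs_nonneg _)
        have hsN := hs N
        have h3 : D / (N + 1) ≤ Δ / 2 := by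
          rw [div_le_div_iff₀ (by positivity) (by norm_num)]
          have h4 : 2 * D / Δ ≤ N := by linarith
          rw [div_le_iff₀ hlt] at h4
          nlinarith
        have h5 : D * (s N / (N + 1)) = s N * (D / (N + 1)) := by ring
        rw [h5] at h1
        have h6 := (abs_le.1 h1).1
        have h7 : s N * (D / (N + 1)) ≤ s N * (Δ / 2) :=
          mul_le_mul_of_nonneg_left h3 (by linarith)
        nlinarith
      have hEt : Tendsto (fun N => E r N) atTop atTop := by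
        refine tendsto_atTop_mono' _ hbound ?_
        exact tendsto_natCast_atTop_atTop.atTop_mul_const (by positivity)
      have hexp : Tendsto (fun N => Real.exp (-E r N) * C) atTop (𝓝 0) := by
        have h1 := (Real.tendsto_exp_neg_atTop_nhds_zero.comp hEt).mul_const C
        rw [zero_mul] at h1
        exact h1
      refine squeeze_zero_norm (fun N => ?_) hexp
      rw [norm_mul, Real.norm_eq_abs, Real.norm_eq_abs, abs_of_pos (Real.exp_pos _)]
      refine mul_le_mul_of_nonneg_left ?_ (Real.exp_pos _).le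
      exact (Set.mem_iInter₂.1 (hZU N).2.2 r hrT).le
    · have h0 : ∀ N, g r (Z N) = 0 := by
        intro N
        by_contra hne
        exact hrT' (Finset.mem_filter.2 ⟨hrT, Z N, hZM N, (hZU N).1, hne⟩)
      simp only [h0, mul_zero]
      exact tendsto_const_nhds
  have hsum := tendsto_finsetSum (T.erase q) hterm
  rw [Finset.sum_const_zero] at hsum
  -- the relation
  have hrel : ∀ᶠ N : ℕ in atTop, g q (Z N) =
      -∑ r ∈ T.erase q, Real.exp (-E r N) * g r (Z N) := by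
    refine Filter.Eventually.of_forall fun N => ?_
    have h1 : f (h * zR (γ N)) = 0 := hf0 N
    have hdet : (h * zR (γ N)).det = h.det := by
      have h2 := hUdet (Z N) (hZU N).1 (hZM N)
      rw [hZeq N, Matrix.mul_assoc, Matrix.det_mul, Matrix.det_diagonal, ha1 N, one_mul] at h2
      exact h2
    rw [hfg _ hdet] at h1
    have hgr : ∀ r, g r (h * zR (γ N)) = (∏ i, (a N i)⁻¹ ^ r i) * g r (Z N) := by
      intro r
      rw [← hgH r, hZeq N, ← Matrix.mul_assoc, ← Matrix.mul_assoc, Matrix.diagonal_mul_diagonal]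
      have h3 : (fun i => (a N i)⁻¹ * a N i) = fun _ => (1 : ℝ) := by
        funext i
        exact inv_mul_cancel₀ (ha N i).ne'
      rw [h3]
      have h4 : (diagonal fun _ : Fin d => (1 : ℝ)) = 1 := Matrix.diagonal_one
      rw [h4, Matrix.one_mul]
    have hprod : ∀ r : Fin d → ℕ, ∏ i, (a N i)⁻¹ ^ r i =
        (∏ i, (a N i)⁻¹ ^ q i) * Real.exp (-E r N) := by
      intro r
      have h3 : ∀ r : Fin d → ℕ, ∏ i, (a N i)⁻¹ ^ r i =
          Real.exp (-∑ i, (r i : ℝ) * Real.log (a N i)) := by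
        intro r
        rw [← Finset.sum_neg_distrib, Real.exp_sum]
        refine Finset.prod_congr rfl fun i _ => ?_
        rw [Real.exp_neg, mul_comm, Real.exp_mul, Real.exp_log (ha N i), Real.rpow_natCast,
          inv_pow]
      rw [h3 r, h3 q, ← Real.exp_add]
      congr 1
      simp only [hE, sub_mul, Finset.sum_sub_distrib]
      ring
    have h5 : (∏ i, (a N i)⁻¹ ^ q i) * ∑ r ∈ T, Real.exp (-E r N) * g r (Z N) = 0 := by
      rw [Finset.mul_sum, ← h1]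
      refine Finset.sum_congr rfl fun r _ => ?_
      rw [hgr r, hprod r, mul_assoc]
    have h6 : ∏ i, (a N i)⁻¹ ^ q i ≠ 0 :=
      Finset.prod_ne_zero_iff.2 fun i _ => pow_ne_zero _ (inv_ne_zero (ha N i).ne')
    have h7 := (mul_eq_zero.1 h5).resolve_left h6
    rw [← Finset.add_sum_erase _ _ hqT] at h7
    have h8 : E q N = 0 := by
      simp [hE]
    rw [h8, neg_zero, Real.exp_zero, one_mul] at h7
    linarith
  have hlim : Tendsto (fun N => g q (Z N)) atTop (𝓝 0) := by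
    have h1 := hsum.neg
    rw [neg_zero] at h1
    exact h1.congr' (hrel.mono fun N hN => hN.symm)
  have h1 : ∀ᶠ N : ℕ in atTop, |g q (Z N)| < η / 2 := by
    have h2 := hlim.abs
    rw [abs_zero] at h2
    exact h2.eventually (gt_mem_nhds (by positivity))
  obtain ⟨N, hN⟩ := h1.exists
  exact absurd (hZU N).2.1 (not_lt.2 hN.le)

/-- the homogeneous parts vanish near the point -/
theorem parts_zero (hd : 0 < d) {V ν : ℝ} (hV : 0 < V) (hν : 0 < ν)
    {M : Set (Matrix (Fin d) (Fin d) ℝ)} (hM : MinB id M) (hMdet : ∀ h ∈ M, |h.det| = V)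
    (hMnu : ∀ h ∈ M, HasNu h ν) {h : Matrix (Fin d) (Fin d) ℝ} (hh : h ∈ M) {α : Fin d → ℝ}
    (hα : ∑ i, α i = 0) {ε T₀ : ℝ} (hε : 0 < ε) {U : Set (Matrix (Fin d) (Fin d) ℝ)}
    (hU : IsOpen U) (hUdet : ∀ Y ∈ U, Y ∈ M → Y.det = h.det)
    {f : Matrix (Fin d) (Fin d) ℝ → ℝ} (i₀ : Fin d) {T : Finset (Fin d → ℕ)} {K : ℕ}
    {g : (Fin d → ℕ) → Matrix (Fin d) (Fin d) ℝ → ℝ} (hT : ∀ q ∈ T, q i₀ = K)
    (hg : ∀ q, g q ∈ PF d) (hgH : ∀ q, Hom (q) (g q))
    (hfg : ∀ Y, Y.det = h.det → f Y = ∑ q ∈ T, g q Y)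
    (hf : ∀ (a : Fin d → ℝ) (γ : Matrix (Fin d) (Fin d) ℤ) (s : ℝ), (∀ i, 0 < a i) →
      ∏ i, a i = 1 → IsUnit γ.det → T₀ ≤ s → (∀ i, |Real.log (a i) - s * α i| ≤ ε * s) →
      diagonal a * h * zR γ ∈ U → f (h * zR γ) = 0) :
    ∀ q ∈ T, ∀ Y ∈ M, Y ∈ U → g q Y = 0 := by
  obtain ⟨β, hβ, hβα, hgen⟩ := exists_generic i₀ hT hα (ε := ε / 2) (by positivity)
  refine parts_core hM hh hU hUdet hg hgH hfg hgen fun Y hYM hYU U' hU' hYU' N₀ => ?_
  obtain ⟨N₁, hN₁⟩ := exists_nat_ge (max T₀ (2 / ε))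
  set N := max N₀ N₁ with hN
  have hN1 : (N₁ : ℝ) ≤ N := by exact_mod_cast le_max_right N₀ N₁
  have hN0 : (0 : ℝ) ≤ N := Nat.cast_nonneg _
  obtain ⟨Z, ⟨hZU', hZU⟩, a, γ, s, ha, ha1, hγ, hs, hs2, rfl⟩ :=
    mem_closure_iff.1 (dense_ray hd hV hν hM hMdet hMnu hh hβ N hYM) (U' ∩ U) (hU'.inter hU)
      ⟨hYU', hYU⟩
  refine ⟨N, le_max_left _ _, a, γ, s, ha, ha1, hγ, hs, hs2, hZU', ?_⟩
  refine hf a γ s ha ha1 hγ ?_ (fun i => ?_) hZU
  · have := (le_max_left T₀ (2 / ε)).trans hN₁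
    linarith
  · have h2 := hs2 i
    have h3 := hβα i
    have h4 : s / (N + 1) ≤ ε / 2 * s := by
      rw [div_le_iff₀ (by positivity)]
      have h5 : 2 / ε ≤ N + 1 := by
        have := (le_max_right T₀ (2 / ε)).trans hN₁
        linarith
      rw [div_le_iff₀ hε] at h5
      nlinarith
    have h6 : Real.log (a i) - s * α i =
        (Real.log (a i) - s * β i) + s * (β i - α i) := by ring
    rw [h6]
    refine (abs_add_le _ _).trans ?_
    rw [abs_mul, abs_of_nonneg (by linarith : 0 ≤ s)]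
    nlinarith

/-- the block translates of a piece of the minimal set -/
theorem block_core {M : Set (Matrix (Fin d) (Fin d) ℝ)}
    {R : Fin d → Fin d → Prop} (hR : Equivalence R)
    (hsmall : ∀ i j, i ≠ j → R i j → Pool.Agent.Q34.CSDThin.Small M i j)
    {U : Set (Matrix (Fin d) (Fin d) ℝ)} (hU : IsOpen U)
    {q : Fin d → ℕ} {g : Matrix (Fin d) (Fin d) ℝ → ℝ} (hg : g ∈ PF d) (hgH : Hom q g)
    (hg0 : ∀ Y ∈ M, Y ∈ U → g Y = 0) {Y : Matrix (Fin d) (Fin d) ℝ} (hYM : Y ∈ M) (hYU : Y ∈ U)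
    {X : Matrix (Fin d) (Fin d) ℝ} (hX : Bl R X) : g (X * Y) = 0 := by
  classical
  set W : Set (Matrix (Fin d) (Fin d) ℝ) :=
    {Y | ∃ (b : Fin d → ℝ) (Z : Matrix (Fin d) (Fin d) ℝ), (∀ i, b i ≠ 0) ∧ Z ∈ M ∧ Z ∈ U ∧
      Y = diagonal b * Z} with hW
  have hdiag : ∀ b : Fin d → ℝ, (∀ i, b i ≠ 0) → ∀ Y ∈ W, diagonal b * Y ∈ W := by
    rintro b hb _ ⟨b', Z, hb', hZM, hZU, rfl⟩
    refine ⟨fun i => b i * b' i, Z, fun i => mul_ne_zero (hb i) (hb' i), hZM, hZU, ?_⟩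
    rw [← Matrix.mul_assoc, Matrix.diagonal_mul_diagonal]
  have hSm : ∀ i j, i ≠ j → R i j → Sm W i j := by
    rintro i j hij hRij _ ⟨b, Z, hb, hZM, hZU, rfl⟩ U₂ hU₂ δ hδ
    set c : ℝ := b i / b j with hc
    have hc0 : c ≠ 0 := div_ne_zero (hb i) (hb j)
    have hcomm : ∀ t : ℝ, transvection i j (t * c) * diagonal b =
        diagonal b * transvection i j t := by
      intro t
      unfold transvection
      rw [Matrix.add_mul, Matrix.mul_add, Matrix.one_mul, Matrix.mul_one]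
      congr 1
      ext x y
      rw [Matrix.mul_diagonal, Matrix.diagonal_mul, Matrix.single_apply, Matrix.single_apply]
      by_cases hxy : i = x ∧ j = y
      · obtain ⟨rfl, rfl⟩ := hxy
        simp only [and_self, if_true]
        rw [hc]
        field_simp [hb j]
      · rw [if_neg hxy, if_neg hxy, zero_mul, mul_zero]
    have hmapc : Continuous fun Y : Matrix (Fin d) (Fin d) ℝ => diagonal b * Y :=
      continuous_const.matrix_mul continuous_id
    have h1 : (fun Y : Matrix (Fin d) (Fin d) ℝ => diagonal b * Y) ⁻¹' U₂ ∈ 𝓝 Z :=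
      hmapc.continuousAt.preimage_mem_nhds hU₂
    have hcont : Continuous fun p : ℝ × Matrix (Fin d) (Fin d) ℝ =>
        transvection i j p.1 * p.2 := by
      refine continuous_pi fun x => continuous_pi fun y => ?_
      simp only [trans_apply]
      have h1 : ∀ a b, Continuous fun p : ℝ × Matrix (Fin d) (Fin d) ℝ => p.2 a b :=
        fun a b => (continuous_apply_apply a b).comp continuous_snd
      refine (h1 x y).add ?_
      split_ifs
      · exact continuous_fst.mul (h1 j y)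
      · exact continuous_const
    have h2 : (fun p : ℝ × Matrix (Fin d) (Fin d) ℝ => transvection i j p.1 * p.2) ⁻¹' U ∈
        𝓝 ((0 : ℝ), Z) := by
      refine hcont.continuousAt.preimage_mem_nhds ?_
      simp only
      rw [trans_zero, Matrix.one_mul]
      exact hU.mem_nhds hZU
    rw [nhds_prod_eq, Filter.mem_prod_iff] at h2
    obtain ⟨A, hA, U₃, hU₃, hAU⟩ := h2
    obtain ⟨δ', hδ', hδA⟩ := Metric.mem_nhds_iff.1 hA
    obtain ⟨Z', hZ'M, hZ'U, t, ht0, htδ, htM⟩ := hsmall i j hij hRij Z hZM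
      (((fun Y : Matrix (Fin d) (Fin d) ℝ => diagonal b * Y) ⁻¹' U₂ ∩ U₃) ∩ U)
      (Filter.inter_mem (Filter.inter_mem h1 hU₃) (hU.mem_nhds hZU))
      (min δ' (δ / |c|)) (lt_min hδ' (div_pos hδ (abs_pos.2 hc0)))
    refine ⟨diagonal b * Z', ⟨b, Z', hb, hZ'M, hZ'U.2, rfl⟩, hZ'U.1.1, t * c,
      mul_ne_zero ht0 hc0, ?_, ⟨b, transvection i j t * Z', hb, htM, ?_, ?_⟩⟩
    · rw [abs_mul, ← lt_div_iff₀ (abs_pos.2 hc0)]
      exact htδ.trans_le (min_le_right _ _)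
    · have htA : t ∈ A := hδA (by
        rw [Metric.mem_ball, Real.dist_eq, sub_zero]
        exact htδ.trans_le (min_le_left _ _))
      exact hAU (Set.mk_mem_prod htA hZ'U.1.2)
    · rw [← Matrix.mul_assoc, hcomm, Matrix.mul_assoc]
  have hgW : ∀ Y ∈ W, g Y = 0 := by
    rintro _ ⟨b, Z, hb, hZM, hZU, rfl⟩
    rw [hgH, hg0 Z hZM hZU, mul_zero]
  have hYW : Y ∈ W := ⟨fun _ => 1, Y, fun _ => one_ne_zero, hYM, hYU, by
    have h4 : (diagonal fun _ : Fin d => (1 : ℝ)) = 1 := Matrix.diagonal_one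
    rw [h4, Matrix.one_mul]⟩
  exact block_zero hR hdiag hSm hg hgW hX hYW

/-- **The Zariski closure of the near returns.** -/
theorem closure_returns (hd : 0 < d) {V ν : ℝ} (hV : 0 < V) (hν : 0 < ν)
    {M : Set (Matrix (Fin d) (Fin d) ℝ)} (hM : MinB id M) (hMdet : ∀ h ∈ M, |h.det| = V)
    (hMnu : ∀ h ∈ M, HasNu h ν) {R : Fin d → Fin d → Prop} (hR : Equivalence R)
    (hsmall : ∀ i j, i ≠ j → R i j → Pool.Agent.Q34.CSDThin.Small M i j)
    {h : Matrix (Fin d) (Fin d) ℝ} (hh : h ∈ M) {α : Fin d → ℝ}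
    (hα : ∑ i, α i = 0) {ε T₀ : ℝ} (hε : 0 < ε) {U : Set (Matrix (Fin d) (Fin d) ℝ)}
    (hU : IsOpen U) (hhU : h ∈ U) {f : Matrix (Fin d) (Fin d) ℝ → ℝ} (hfP : f ∈ PF d)
    (hf : ∀ (a : Fin d → ℝ) (γ : Matrix (Fin d) (Fin d) ℤ) (s : ℝ), (∀ i, 0 < a i) →
      ∏ i, a i = 1 → γ.det = 1 → T₀ ≤ s → (∀ i, |Real.log (a i) - s * α i| ≤ ε * s) →
      diagonal a * h * zR γ ∈ U → f (h * zR γ) = 0)
    {X : Matrix (Fin d) (Fin d) ℝ} (hX : Bl R X) (hX1 : X.det = 1) : f (X * h) = 0 := by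
  classical
  set U₁ : Set (Matrix (Fin d) (Fin d) ℝ) := U ∩ {Y | 0 < Y.det * h.det} with hU₁
  have hdet0 : h.det ≠ 0 := by
    rw [← abs_ne_zero, hMdet h hh]
    exact hV.ne'
  have hU₁o : IsOpen U₁ := by
    refine hU.inter (isOpen_lt continuous_const ?_)
    exact (continuous_id.matrix_det).mul continuous_const
  have hhU₁ : h ∈ U₁ := ⟨hhU, mul_self_pos.2 hdet0⟩
  have hU₁det : ∀ Y ∈ U₁, Y ∈ M → Y.det = h.det := by
    intro Y hY hYM
    have h1 : |Y.det| = |h.det| := by rw [hMdet Y hYM, hMdet h hh]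
    rcases abs_eq_abs.1 h1 with h2 | h2
    · exact h2
    · have h3 : 0 < Y.det * h.det := hY.2
      rw [h2] at h3
      nlinarith [mul_self_nonneg h.det]
  set i₀ : Fin d := ⟨0, hd⟩
  obtain ⟨T, K, g, hT, hg, hgH, hfg⟩ := exists_hom_det i₀ hdet0 hfP
  have hparts := parts_zero hd hV hν hM hMdet hMnu hh hα hε hU₁o hU₁det i₀ hT hg hgH hfg
    (T₀ := T₀) (fun a γ s ha ha1 hγ hs hs2 hmem => hf a γ s ha ha1 (by
      have h1 := hU₁det _ hmem (inv_of_invB hM.inv h hh a γ ha ha1 hγ)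
      rw [Matrix.det_mul, Matrix.det_mul, Matrix.det_diagonal, ha1, one_mul] at h1
      have h2 : (zR γ).det = 1 := mul_left_cancel₀ hdet0 (by rw [h1, mul_one])
      rcases Int.isUnit_iff.1 hγ with h3 | h3
      · exact h3
      · exfalso
        have h4 : (zR γ).det = ((γ.det : ℤ) : ℝ) := by
          unfold zR
          exact (Int.cast_det (R := ℝ) γ).symm
        rw [h4, h3] at h2
        norm_num at h2) hs hs2 hmem.1)
  rw [hfg _ (by rw [Matrix.det_mul, hX1, one_mul])]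
  exact Finset.sum_eq_zero fun q hq =>
    block_core hR hsmall hU₁o (hg q) (hgH q) (fun Y hYM hYU => hparts q hq Y hYM hYU) hh hhU₁ hX

end Pool.Agent.H202.ZR
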