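import Mathlib
import Pool.Agent.H202.ZR.Main
import Pool.Agent.H202.ST.Core
import Pool.Graph.R_seed8.Y327.Full

/-!
# Near returns commute with the rational matrices which are diagonal with respect to the forms
-/

set_option autoImplicit false

open Matrix Finset Filter Topology

namespace Pool.Agent.H202.ZR

open Pool.Agent.Y327 H715R2

variable {d : ℕ}

/-- the rational matrices `σ` with `L i ∘ σ` a multiple of `L i` for all `i` -/
def Sy (L : Matrix (Fin d) (Fin d) ℝ) : Set (Matrix (Fin d) (Fin d) ℚ) :=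
  {σ | ∃ c : Fin d → ℝ, L * σ.map (Rat.cast : ℚ → ℝ) = diagonal c * L}

lemma nhds_entries {L : Matrix (Fin d) (Fin d) ℝ} {U : Set (Matrix (Fin d) (Fin d) ℝ)}
    (hU : U ∈ 𝓝 L) : ∃ ε : ℝ, 0 < ε ∧ ∀ Y : Matrix (Fin d) (Fin d) ℝ,
      (∀ i j, |Y i j - L i j| ≤ ε) → Y ∈ U := by
  have hU' : U ∈ @nhds (Fin d → Fin d → ℝ) _ L := hU
  obtain ⟨ε, hε, hε2⟩ := Metric.mem_nhds_iff.1 hU'
  refine ⟨ε / 2, by positivity, fun Y hY => hε2 ?_⟩
  have h1 : dist (show Fin d → Fin d → ℝ from Y) L ≤ ε / 2 := by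
    refine (dist_pi_le_iff (by positivity)).2 fun i => (dist_pi_le_iff (by positivity)).2 fun j => ?_
    rw [Real.dist_eq]
    exact hY i j
  exact Metric.mem_ball.2 (lt_of_le_of_lt h1 (by linarith))

lemma isOpen_entries (L : Matrix (Fin d) (Fin d) ℝ) (ε : ℝ) :
    IsOpen {Y : Matrix (Fin d) (Fin d) ℝ | ∀ i j, |Y i j - L i j| < ε} := by
  have h1 : {Y : Matrix (Fin d) (Fin d) ℝ | ∀ i j, |Y i j - L i j| < ε} =
      ⋂ i, ⋂ j, {Y | |Y i j - L i j| < ε} := by
    ext Y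
    simp [Set.mem_iInter]
  rw [h1]
  refine isOpen_iInter_of_finite fun i => isOpen_iInter_of_finite fun j => ?_
  have hc : Continuous fun Y : Matrix (Fin d) (Fin d) ℝ => Y i j := continuous_apply_apply i j
  exact isOpen_lt (hc.sub continuous_const).abs continuous_const

lemma continuousAt_inv' {L : Matrix (Fin d) (Fin d) ℝ} (hL : L.det ≠ 0) :
    ContinuousAt (fun Y : Matrix (Fin d) (Fin d) ℝ => Y⁻¹) L := by
  have h1 : (fun Y : Matrix (Fin d) (Fin d) ℝ => Y⁻¹) = fun Y => (Y.det)⁻¹ • Y.adjugate := by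
    funext Y
    rw [Matrix.inv_def, Ring.inverse_eq_inv']
  rw [h1]
  have h2 : ContinuousAt (fun Y : Matrix (Fin d) (Fin d) ℝ => (Y.det)⁻¹) L :=
    (continuous_id.matrix_det).continuousAt.inv₀ hL
  have h3 : ContinuousAt (fun Y : Matrix (Fin d) (Fin d) ℝ => Y.adjugate) L :=
    (continuous_id.matrix_adjugate).continuousAt
  exact h2.smul h3

lemma commute_one {L : Matrix (Fin d) (Fin d) ℝ} (hL : L.det ≠ 0)
    {σ : Matrix (Fin d) (Fin d) ℚ} (hσ : σ ∈ Sy L) :
    ∃ ε : ℝ, 0 < ε ∧ ∀ (a : Fin d → ℝ) (γ : Matrix (Fin d) (Fin d) ℤ), IsUnit γ.det →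
      (∀ i j, |(diagonal a * L * zR γ) i j - L i j| ≤ ε) → (∀ i, a i ≠ 0) →
      σ * γ.map (Int.cast : ℤ → ℚ) = γ.map (Int.cast : ℤ → ℚ) * σ := by
  classical
  obtain ⟨c, hc⟩ := hσ
  set σR := σ.map (Rat.cast : ℚ → ℝ) with hσR
  have hLu : IsUnit L.det := isUnit_iff_ne_zero.2 hL
  obtain ⟨N, hN, hz⟩ := Pool.Agent.H202.ST.exists_common (fun p : Fin d × Fin d => σ p.1 p.2)
  choose z hz using hz
  set S : Matrix (Fin d) (Fin d) ℤ := fun i j => z (i, j) with hS
  have hSσ : zR S = (N : ℝ) • σR := by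
    ext i j
    have h1 := hz (i, j)
    have h2 : ((z (i, j) : ℚ) : ℝ) = ((N * σ i j : ℚ) : ℝ) := by rw [h1]
    simp only [hS, zR, Matrix.map_apply, Matrix.smul_apply, hσR, smul_eq_mul]
    push_cast at h2
    exact h2
  have hN' : (0 : ℝ) < N := by exact_mod_cast hN
  have hcont : ContinuousAt (fun Y : Matrix (Fin d) (Fin d) ℝ => Y⁻¹ * (diagonal c * Y)) L := by
    have h1 := continuousAt_inv' hL
    have h2 : ContinuousAt (fun Y : Matrix (Fin d) (Fin d) ℝ => diagonal c * Y) L :=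
      (continuous_const.matrix_mul continuous_id).continuousAt
    exact ContinuousAt.comp (g := fun p : Matrix (Fin d) (Fin d) ℝ × Matrix (Fin d) (Fin d) ℝ =>
      p.1 * p.2) (continuous_fst.matrix_mul continuous_snd).continuousAt (h1.prodMk h2)
  have hL0 : L⁻¹ * (diagonal c * L) = σR := by
    rw [← hc, ← Matrix.mul_assoc, Matrix.nonsing_inv_mul _ hLu, Matrix.one_mul]
  have hopen : {Z : Matrix (Fin d) (Fin d) ℝ | ∀ i j, |Z i j - σR i j| < 1 / N} ∈
      𝓝 (L⁻¹ * (diagonal c * L)) := by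
    rw [hL0]
    refine (isOpen_entries σR (1 / N)).mem_nhds fun i j => ?_
    rw [sub_self, abs_zero]
    positivity
  obtain ⟨ε₁, hε₁, hε₁'⟩ := nhds_entries (hcont.preimage_mem_nhds hopen)
  have hdetn : {Y : Matrix (Fin d) (Fin d) ℝ | Y.det ≠ 0} ∈ 𝓝 L :=
    (isOpen_ne_fun (continuous_id.matrix_det) continuous_const).mem_nhds hL
  obtain ⟨ε₂, hε₂, hε₂'⟩ := nhds_entries hdetn
  refine ⟨min ε₁ ε₂, lt_min hε₁ hε₂, fun a γ hγ hab ha => ?_⟩
  set Y := diagonal a * L * zR γ with hY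
  have hYdet : Y.det ≠ 0 := hε₂' Y fun i j => (hab i j).trans (min_le_right _ _)
  have hclose : ∀ i j, |(Y⁻¹ * (diagonal c * Y)) i j - σR i j| < 1 / N :=
    hε₁' Y fun i j => (hab i j).trans (min_le_left _ _)
  have hYu : IsUnit Y.det := isUnit_iff_ne_zero.2 hYdet
  have hγγ : zR γ * zR γ⁻¹ = 1 := by
    rw [← zR_mul, Matrix.mul_nonsing_inv _ hγ, zR_one]
  have hγγ' : zR γ⁻¹ * zR γ = 1 := by
    rw [← zR_mul, Matrix.nonsing_inv_mul _ hγ, zR_one]
  have hconj : Y⁻¹ * (diagonal c * Y) = zR γ⁻¹ * σR * zR γ := by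
    have h1 : Y * (zR γ⁻¹ * σR * zR γ) = diagonal c * Y := by
      calc Y * (zR γ⁻¹ * σR * zR γ) = diagonal a * L * (zR γ * zR γ⁻¹) * σR * zR γ := by
            rw [hY]
            simp only [Matrix.mul_assoc]
        _ = diagonal a * (L * σR) * zR γ := by
            rw [hγγ, Matrix.mul_one]
            simp only [Matrix.mul_assoc]
        _ = diagonal a * (diagonal c * L) * zR γ := by rw [hc]
        _ = diagonal c * Y := by
            rw [hY]
            simp only [← Matrix.mul_assoc]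
            rw [Matrix.diagonal_mul_diagonal, Matrix.diagonal_mul_diagonal]
            simp only [mul_comm]
    rw [← h1, ← Matrix.mul_assoc, Matrix.nonsing_inv_mul _ hYu, Matrix.one_mul]
  have hint : zR (γ⁻¹ * S * γ - S) = (N : ℝ) • (Y⁻¹ * (diagonal c * Y) - σR) := by
    rw [hconj, smul_sub, ← hSσ]
    have h1 : zR (γ⁻¹ * S * γ - S) = zR (γ⁻¹ * S * γ) - zR S := by
      ext i j
      simp [zR]
    rw [h1, zR_mul, zR_mul, hSσ]
    congr 1
    rw [Matrix.mul_smul, Matrix.smul_mul]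
  have hzero : γ⁻¹ * S * γ - S = 0 := by
    ext i j
    have h1 := congrFun (congrFun hint i) j
    have h2 : zR (γ⁻¹ * S * γ - S) i j = (((γ⁻¹ * S * γ - S) i j : ℤ) : ℝ) := rfl
    rw [h2, Matrix.smul_apply, Matrix.sub_apply (Y⁻¹ * (diagonal c * Y)), smul_eq_mul] at h1
    have h3 : |(((γ⁻¹ * S * γ - S) i j : ℤ) : ℝ)| < 1 := by
      rw [h1, abs_mul, abs_of_pos hN', mul_comm, ← lt_div_iff₀ hN']
      exact hclose i j
    have h4 : |(γ⁻¹ * S * γ - S) i j| < 1 := by exact_mod_cast h3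
    rw [Matrix.zero_apply]
    exact Int.abs_lt_one_iff.1 h4
  have hcomm : S * γ = γ * S := by
    have h1 : γ⁻¹ * S * γ = S := sub_eq_zero.1 hzero
    calc S * γ = (γ * γ⁻¹) * (S * γ) := by rw [Matrix.mul_nonsing_inv _ hγ, Matrix.one_mul]
      _ = γ * (γ⁻¹ * S * γ) := by simp only [Matrix.mul_assoc]
      _ = γ * S := by rw [h1]
  -- over the rationals
  have hSq : S.map (Int.cast : ℤ → ℚ) = (N : ℚ) • σ := by
    ext i j
    simp only [hS, Matrix.smul_apply, smul_eq_mul]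
    exact hz (i, j)
  have h5 : S.map (Int.cast : ℤ → ℚ) * γ.map (Int.cast : ℤ → ℚ) =
      γ.map (Int.cast : ℤ → ℚ) * S.map (Int.cast : ℤ → ℚ) := by
    have h6 := congrArg (fun X : Matrix (Fin d) (Fin d) ℤ => (Int.castRingHom ℚ).mapMatrix X) hcomm
    simp only [map_mul] at h6
    exact h6
  rw [hSq, Matrix.smul_mul, Matrix.mul_smul] at h5
  have hNq : (N : ℚ) ≠ 0 := by exact_mod_cast hN.ne'
  exact smul_right_injective _ hNq h5

/-- the rational matrices which are diagonal with respect to `L` form a space -/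
def SyS (L : Matrix (Fin d) (Fin d) ℝ) : Submodule ℚ (Matrix (Fin d) (Fin d) ℚ) where
  carrier := Sy L
  zero_mem' := ⟨fun _ => 0, by
    have h1 : (0 : Matrix (Fin d) (Fin d) ℚ).map (Rat.cast : ℚ → ℝ) = 0 := by
      ext i j
      simp
    have h2 : (diagonal fun _ : Fin d => (0 : ℝ)) = 0 := Matrix.diagonal_zero
    rw [h1, h2, Matrix.mul_zero, Matrix.zero_mul]⟩
  add_mem' := by
    rintro σ τ ⟨c, hc⟩ ⟨c', hc'⟩
    refine ⟨fun i => c i + c' i, ?_⟩
    have h1 : (σ + τ).map (Rat.cast : ℚ → ℝ) = σ.map (Rat.cast : ℚ → ℝ) +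
        τ.map (Rat.cast : ℚ → ℝ) := by
      ext i j
      simp
    rw [h1, Matrix.mul_add, hc, hc', ← Matrix.add_mul, Matrix.diagonal_add]
  smul_mem' := by
    rintro q σ ⟨c, hc⟩
    refine ⟨fun i => (q : ℝ) * c i, ?_⟩
    have h1 : (q • σ).map (Rat.cast : ℚ → ℝ) = (q : ℝ) • σ.map (Rat.cast : ℚ → ℝ) := by
      ext i j
      simp
    have h2 : (diagonal fun i => (q : ℝ) * c i) = (q : ℝ) • diagonal c := by
      rw [← Matrix.diagonal_smul]
      rfl
    rw [h1, Matrix.mul_smul, hc, h2, Matrix.smul_mul]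

theorem commute_all {L : Matrix (Fin d) (Fin d) ℝ} (hL : L.det ≠ 0) :
    ∃ ε : ℝ, 0 < ε ∧ ∀ (a : Fin d → ℝ) (γ : Matrix (Fin d) (Fin d) ℤ), IsUnit γ.det →
      (∀ i j, |(diagonal a * L * zR γ) i j - L i j| ≤ ε) → (∀ i, a i ≠ 0) → ∀ σ ∈ Sy L,
      σ * γ.map (Int.cast : ℤ → ℚ) = γ.map (Int.cast : ℤ → ℚ) * σ := by
  classical
  set b := Module.finBasis ℚ (SyS L) with hb
  have hmem : ∀ k, ((b k : SyS L) : Matrix (Fin d) (Fin d) ℚ) ∈ Sy L := fun k => (b k).2
  choose ε hε hε2 using fun k => commute_one hL (hmem k)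
  obtain ⟨ε₀, hε₀, hε₀2⟩ : ∃ ε₀ : ℝ, 0 < ε₀ ∧ ∀ k, ε₀ ≤ ε k := by
    by_cases hne : (Finset.univ : Finset (Fin (Module.finrank ℚ (SyS L)))).Nonempty
    · refine ⟨Finset.univ.inf' hne ε, ?_, fun k => Finset.inf'_le _ (Finset.mem_univ k)⟩
      rw [Finset.lt_inf'_iff]
      exact fun k _ => hε k
    · refine ⟨1, one_pos, fun k => ?_⟩
      exact absurd ⟨k, Finset.mem_univ k⟩ hne
  refine ⟨ε₀, hε₀, fun a γ hγ hab ha σ hσ => ?_⟩
  set G := γ.map (Int.cast : ℤ → ℚ) with hG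
  have h1 := b.sum_repr ⟨σ, hσ⟩
  have h2 := congrArg (fun u : SyS L => (u : Matrix (Fin d) (Fin d) ℚ)) h1
  simp only [Submodule.coe_sum, Submodule.coe_smul] at h2
  rw [← h2, Finset.sum_mul, Finset.mul_sum]
  refine Finset.sum_congr rfl fun k _ => ?_
  rw [Matrix.smul_mul, Matrix.mul_smul,
    hε2 k a γ hγ (fun i j => (hab i j).trans (hε₀2 k)) ha]

/-- a matrix which commutes with all rational matrices diagonal with respect to `L` -/
lemma block_of_commute {L : Matrix (Fin d) (Fin d) ℝ} (hL : L.det ≠ 0)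
    {g : Matrix (Fin d) (Fin d) ℝ}
    (hg : ∀ σ ∈ Sy L, σ.map (Rat.cast : ℚ → ℝ) * g = g * σ.map (Rat.cast : ℚ → ℝ)) :
    Bl (Sam L) (L * g * L⁻¹) := by
  have hLu : IsUnit L.det := isUnit_iff_ne_zero.2 hL
  intro i j hij
  unfold Sam at hij
  push Not at hij
  obtain ⟨f, hf, hne⟩ := hij
  have hkap : kap f = (LinearMap.toMatrix' f).map (Rat.cast : ℚ → ℝ) := by
    ext a b
    rw [kap_apply, Matrix.map_apply, LinearMap.toMatrix'_apply]
  set D := L * kap f * L⁻¹ with hD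
  have hDd : D = diagonal fun i => D i i := by
    ext a b
    by_cases hab : a = b
    · subst hab
      rw [Matrix.diagonal_apply_eq]
    · rw [Matrix.diagonal_apply_ne _ hab]
      exact hf a b hab
  have hσ : LinearMap.toMatrix' f ∈ Sy L := by
    refine ⟨fun i => D i i, ?_⟩
    rw [← hDd, hD, ← hkap, Matrix.mul_assoc, Matrix.nonsing_inv_mul _ hLu, Matrix.mul_one]
  have h1 := hg _ hσ
  rw [← hkap] at h1
  have h2 : D * (L * g * L⁻¹) = (L * g * L⁻¹) * D := by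
    have e1 : L⁻¹ * L = 1 := Matrix.nonsing_inv_mul _ hLu
    calc D * (L * g * L⁻¹) = L * kap f * (L⁻¹ * L) * g * L⁻¹ := by
          rw [hD]
          simp only [Matrix.mul_assoc]
      _ = L * (kap f * g) * L⁻¹ := by
          rw [e1, Matrix.mul_one]
          simp only [Matrix.mul_assoc]
      _ = L * (g * kap f) * L⁻¹ := by rw [h1]
      _ = L * g * (L⁻¹ * L) * kap f * L⁻¹ := by
          rw [e1, Matrix.mul_one]
          simp only [Matrix.mul_assoc]
      _ = _ := by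
          rw [hD]
          simp only [Matrix.mul_assoc]
  have h3 := congrFun (congrFun h2 i) j
  rw [hDd, Matrix.diagonal_mul, Matrix.mul_diagonal] at h3
  have h4 : (D i i - D j j) * (L * g * L⁻¹) i j = 0 := by
    rw [sub_mul, h3]
    ring
  exact (mul_eq_zero.1 h4).resolve_left (sub_ne_zero.2 hne)

end Pool.Agent.H202.ZR
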