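import Mathlib
import Pool.Agent.H202.ZR.Sym

/-!
# Almost no returns lie on a given hypersurface
-/

set_option autoImplicit false

open Matrix Finset Filter Topology

namespace Pool.Agent.H202.ZR

open Pool.Agent.Y327 H715R2

variable {d : ℕ}

/-- the limits of the systems `a L γ` with `f (h γ) = 0`, far out along the ray `β` -/
def ZLim (h : Matrix (Fin d) (Fin d) ℝ) (β : Fin d → ℝ) (f : Matrix (Fin d) (Fin d) ℝ → ℝ) :
    Set (Matrix (Fin d) (Fin d) ℝ) :=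
  {Y | ∀ U' : Set (Matrix (Fin d) (Fin d) ℝ), IsOpen U' → Y ∈ U' →
    ∀ N : ℕ, ∃ (a : Fin d → ℝ) (γ : Matrix (Fin d) (Fin d) ℤ) (s : ℝ),
        (∀ i, 0 < a i) ∧ ∏ i, a i = 1 ∧ IsUnit γ.det ∧ (N + 1 : ℝ) ≤ s ∧
        (∀ i, |Real.log (a i) - s * β i| ≤ s / (N + 1)) ∧ diagonal a * h * zR γ ∈ U' ∧
        f (h * zR γ) = 0}

theorem nowhere (hd : 0 < d) {V : ℝ} (hV : 0 < V)
    {M : Set (Matrix (Fin d) (Fin d) ℝ)} (hM : MinB id M) (hMdet : ∀ h ∈ M, |h.det| = V)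
    (hsmall : ∀ i j, i ≠ j → Pool.Agent.Q34.CSDThin.Small M i j)
    {h : Matrix (Fin d) (Fin d) ℝ} (hh : h ∈ M) {f : Matrix (Fin d) (Fin d) ℝ → ℝ}
    (hfP : f ∈ PF d) (hf : ∃ Z : Matrix (Fin d) (Fin d) ℝ, Z.det = h.det ∧ f Z ≠ 0) :
    ∃ Q : Finset (Fin d → ℤ), (∀ q ∈ Q, ∃ i j, q i ≠ q j) ∧ ∀ β : Fin d → ℝ,
      (∀ q ∈ Q, ∑ i, β i * (q i : ℝ) ≠ 0) → ∀ U : Set (Matrix (Fin d) (Fin d) ℝ), IsOpen U →
      (∃ Y ∈ M, Y.det = h.det ∧ Y ∈ U) → ∃ Y ∈ M, Y.det = h.det ∧ Y ∈ U ∧ Y ∉ ZLim h β f := by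
  classical
  have hdet0 : h.det ≠ 0 := by
    rw [← abs_ne_zero, hMdet h hh]
    exact hV.ne'
  set i₀ : Fin d := ⟨0, hd⟩
  obtain ⟨T, K, g, hT, hg, hgH, hfg⟩ := exists_hom_det i₀ hdet0 hfP
  refine ⟨((T ×ˢ T).filter fun r => r.1 ≠ r.2).image fun r i => (r.1 i : ℤ) - r.2 i, ?_, ?_⟩
  · intro q hq
    obtain ⟨r, hr, rfl⟩ := Finset.mem_image.1 hq
    obtain ⟨hr1, hr2⟩ := Finset.mem_filter.1 hr
    obtain ⟨hr3, hr4⟩ := Finset.mem_product.1 hr1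
    obtain ⟨i, hi⟩ := Function.ne_iff.1 hr2
    refine ⟨i, i₀, ?_⟩
    simp only
    rw [hT _ hr3, hT _ hr4, sub_self]
    omega
  · rintro β hβ U hU ⟨Y₀, hY₀M, hY₀det, hY₀U⟩
    by_contra hcon
    push Not at hcon
    set U₁ : Set (Matrix (Fin d) (Fin d) ℝ) := U ∩ {Y | 0 < Y.det * h.det} with hU₁
    have hU₁o : IsOpen U₁ := by
      refine hU.inter (isOpen_lt continuous_const ?_)
      exact (continuous_id.matrix_det).mul continuous_const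
    have hU₁det : ∀ Y ∈ U₁, Y ∈ M → Y.det = h.det := by
      intro Y hY hYM
      have h1 : |Y.det| = |h.det| := by rw [hMdet Y hYM, hMdet h hh]
      rcases abs_eq_abs.1 h1 with h2 | h2
      · exact h2
      · have h3 : 0 < Y.det * h.det := hY.2
        rw [h2] at h3
        nlinarith [mul_self_nonneg h.det]
    have hgen : ∀ q ∈ T, ∀ q' ∈ T, q ≠ q' → ∑ i, β i * ((q i : ℝ) - q' i) ≠ 0 := by
      intro q hq q' hq' hne
      have h1 := hβ _ (Finset.mem_image_of_mem _ (Finset.mem_filter.2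
        ⟨Finset.mk_mem_product hq hq', hne⟩))
      push_cast at h1
      exact h1
    have hparts := parts_core hM hh hU₁o hU₁det hg hgH hfg hgen (fun Y hYM hYU U' hU' hYU' N₀ => by
      obtain ⟨a, γ, s, h1⟩ := hcon Y hYM (hU₁det Y hYU hYM) hYU.1 U' hU' hYU' N₀
      exact ⟨N₀, le_refl _, a, γ, s, h1⟩)
    have hY₀U₁ : Y₀ ∈ U₁ := ⟨hY₀U, by
      show 0 < Y₀.det * h.det
      rw [hY₀det]
      exact mul_self_pos.2 hdet0⟩
    obtain ⟨Z, hZ, hfZ⟩ := hf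
    apply hfZ
    rw [hfg Z hZ]
    refine Finset.sum_eq_zero fun q hq => ?_
    have hY₀u : IsUnit Y₀.det := by
      rw [hY₀det]
      exact isUnit_iff_ne_zero.2 hdet0
    have h1 := block_core (R := fun _ _ => True) ⟨fun _ => trivial, fun _ => trivial,
      fun _ _ => trivial⟩ (fun i j hij _ => hsmall i j hij) hU₁o (hg q) (hgH q)
      (fun Y hYM hYU => hparts q hq Y hYM hYU) hY₀M hY₀U₁ (X := Z * Y₀⁻¹)
      (fun i j hij => absurd trivial hij)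
    rwa [Matrix.mul_assoc, Matrix.nonsing_inv_mul _ hY₀u, Matrix.mul_one] at h1

end Pool.Agent.H202.ZR
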